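import Pool.Agent.Lib.H56.Gauss.Unfold
import Pool.Agent.Lib.H56.Picard.Coord

/-!
# Integration over the Gaussian cusp box in horospherical coordinates
-/

namespace Pool.Agent.Lib.H56.Gauss

open Matrix hiding J
open MeasureTheory
open scoped Pointwise ENNReal
open Pool.Agent.Lib.H56.Picard (SU21 mat height X mu continuous_height lintegral_affine
  lintegral_complex tonelli3 lintegral_CC lintegral_mu measurableSet_siegel measurable_dens)

noncomputable section

/-- Horospherical coordinates: `ζ = s(1+i) + t(-1+i)`, `z₁ = (-|ζ|² - u + i v)/2`, `z₂ = ζ`. -/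
def Psi (s t v u : ℝ) : ℂ × ℂ :=
  (⟨(-(2 * (s ^ 2 + t ^ 2)) - u) / 2, v / 2⟩, ⟨s - t, s + t⟩)

lemma height_Psi (s t v u : ℝ) : height (Psi s t v u) = u := by
  simp only [height, Psi, Complex.normSq_apply]
  ring

lemma sc_Psi (s t v u : ℝ) : sc (Psi s t v u) = s := by
  simp only [sc, Psi]
  ring

lemma tc_Psi (s t v u : ℝ) : tc (Psi s t v u) = t := by
  simp only [tc, Psi]
  ring

lemma vc_Psi (s t v u : ℝ) : vc (Psi s t v u) = v := by
  simp only [vc, Psi]
  ring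

lemma Psi_coords (z : ℂ × ℂ) : Psi (sc z) (tc z) (vc z) (height z) = z := by
  refine Prod.ext (Complex.ext ?_ ?_) (Complex.ext ?_ ?_)
  · simp only [height, Psi, sc, tc, Complex.normSq_apply]; ring
  · simp only [vc, Psi]; ring
  · simp only [Psi, sc, tc]; ring
  · simp only [Psi, sc, tc]; ring

lemma measurable_Psi4 : Measurable fun p : ℝ × ℝ × ℝ × ℝ => Psi p.1 p.2.1 p.2.2.1 p.2.2.2 := by
  have h1 : Continuous fun p : ℝ × ℝ × ℝ × ℝ => Psi p.1 p.2.1 p.2.2.1 p.2.2.2 := by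
    have e : (fun p : ℝ × ℝ × ℝ × ℝ => Psi p.1 p.2.1 p.2.2.1 p.2.2.2) = fun p =>
        (((((-(2 * (p.1 ^ 2 + p.2.1 ^ 2)) - p.2.2.2) / 2 : ℝ) : ℂ) +
          ((p.2.2.1 / 2 : ℝ) : ℂ) * Complex.I),
          (((p.1 - p.2.1 : ℝ) : ℂ) + ((p.1 + p.2.1 : ℝ) : ℂ) * Complex.I)) := by
      funext p
      refine Prod.ext (Complex.ext ?_ ?_) (Complex.ext ?_ ?_) <;>
        simp only [Psi, Complex.add_re, Complex.add_im, Complex.ofReal_re, Complex.mul_re,
          Complex.mul_im, Complex.I_re, Complex.I_im, Complex.ofReal_im] <;> ring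
    rw [e]
    fun_prop
  exact h1.measurable

lemma inner_Psi (G : ℂ × ℂ → ℝ≥0∞) (s t : ℝ) :
    ∫⁻ a : ℝ, ∫⁻ b : ℝ, G (⟨a, b⟩, ⟨1 * s + -t, 2 * t + (1 * s + -t)⟩) =
      ENNReal.ofReal (1 / 4) * ∫⁻ u : ℝ, ∫⁻ v : ℝ, G (Psi s t v u) := by
  rw [lintegral_affine (-(1 / 2)) (-(2 * (s ^ 2 + t ^ 2)) / 2) (by norm_num)]
  have h4 : ENNReal.ofReal (1 / 4) =
      ENNReal.ofReal |-(1 / 2 : ℝ)| * ENNReal.ofReal |(1 / 2 : ℝ)| := by
    rw [← ENNReal.ofReal_mul (abs_nonneg _)]; norm_num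
  rw [h4, mul_assoc]
  congr 1
  rw [← lintegral_const_mul' _ _ ENNReal.ofReal_ne_top]
  apply lintegral_congr; intro u
  rw [lintegral_affine (1 / 2) 0 (by norm_num)]
  congr 1
  apply lintegral_congr; intro v
  congr 1
  refine Prod.ext (Complex.ext ?_ ?_) (Complex.ext ?_ ?_)
  · simp only [Psi]; ring
  · simp only [Psi]; ring
  · simp only [Psi]; ring
  · simp only [Psi]; ring

/-- Change of variables on `ℂ × ℂ`. -/
lemma lintegral_Psi (G : ℂ × ℂ → ℝ≥0∞) (hG : Measurable G) :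
    ∫⁻ z, G z = ENNReal.ofReal (1 / 2) *
      ∫⁻ u : ℝ, ∫⁻ s : ℝ, ∫⁻ t : ℝ, ∫⁻ v : ℝ, G (Psi s t v u) := by
  have step1 := lintegral_CC G hG
  have hmC : Measurable fun p : ℝ × ℝ => (⟨p.1, p.2⟩ : ℂ) :=
    Complex.measurableEquivRealProd.symm.measurable
  have hm4 : Measurable fun p : ((ℝ × ℝ) × ℝ) × ℝ => G (⟨p.1.2, p.2⟩, ⟨p.1.1.1, p.1.1.2⟩) := by
    apply hG.comp
    exact (hmC.comp ((measurable_fst.snd).prodMk measurable_snd)).prodMk
      (hmC.comp ((measurable_fst.fst.fst).prodMk (measurable_fst.fst.snd)))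
  have hm3 : Measurable fun p : (ℝ × ℝ) × ℝ => ∫⁻ b : ℝ, G (⟨p.2, b⟩, ⟨p.1.1, p.1.2⟩) :=
    Measurable.lintegral_prod_right' hm4
  have hm2 : Measurable fun p : ℝ × ℝ => ∫⁻ a : ℝ, ∫⁻ b : ℝ, G (⟨a, b⟩, ⟨p.1, p.2⟩) :=
    Measurable.lintegral_prod_right' hm3
  have hm2' : Measurable fun p : ℝ × ℝ =>
      ∫⁻ a : ℝ, ∫⁻ b : ℝ, G (⟨a, b⟩, ⟨p.1, 2 * p.2 + p.1⟩) := by
    have hp : Measurable fun p : ℝ × ℝ => (p.1, 2 * p.2 + p.1) := by fun_prop
    have h := hm2.comp hp
    simp only [Function.comp_def] at h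
    exact h
  rw [step1]
  -- y = 2 t + x
  have step0 : ∀ x : ℝ, (∫⁻ y : ℝ, ∫⁻ a : ℝ, ∫⁻ b : ℝ, G (⟨a, b⟩, ⟨x, y⟩)) =
      ENNReal.ofReal |2| * ∫⁻ t : ℝ, ∫⁻ a : ℝ, ∫⁻ b : ℝ, G (⟨a, b⟩, ⟨x, 2 * t + x⟩) := by
    intro x
    rw [lintegral_affine 2 x (by norm_num)]
  rw [lintegral_congr step0, lintegral_const_mul' _ _ ENNReal.ofReal_ne_top]
  -- swap x and t
  rw [lintegral_lintegral_swap
    (f := fun x t : ℝ => ∫⁻ a : ℝ, ∫⁻ b : ℝ, G (⟨a, b⟩, ⟨x, 2 * t + x⟩))
    hm2'.aemeasurable]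
  have step2 : ∀ t : ℝ, (∫⁻ x : ℝ, ∫⁻ a : ℝ, ∫⁻ b : ℝ, G (⟨a, b⟩, ⟨x, 2 * t + x⟩)) =
      ENNReal.ofReal (1 / 4) *
        ∫⁻ s : ℝ, ∫⁻ u : ℝ, ∫⁻ v : ℝ, G (Psi s t v u) := by
    intro t
    rw [lintegral_affine 1 (-t) one_ne_zero, abs_one, ENNReal.ofReal_one, one_mul,
      ← lintegral_const_mul' _ _ ENNReal.ofReal_ne_top]
    exact lintegral_congr fun s => inner_Psi G s t
  rw [lintegral_congr step2]
  rw [lintegral_const_mul' _ _ ENNReal.ofReal_ne_top, ← mul_assoc,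
    ← ENNReal.ofReal_mul (abs_nonneg _)]
  have hc : |(2 : ℝ)| * (1 / 4) = 1 / 2 := by rw [abs_of_pos (by norm_num)]; norm_num
  rw [hc]
  congr 1
  have m4 : Measurable fun q : (ℝ × ℝ × ℝ) × ℝ => (q.1.2.1, q.1.1, q.2, q.1.2.2) :=
    (measurable_fst.snd.fst).prodMk
      ((measurable_fst.fst).prodMk (measurable_snd.prodMk (measurable_fst.snd.snd)))
  have m5 : Measurable fun q : (ℝ × ℝ × ℝ) × ℝ => G (Psi q.1.2.1 q.1.1 q.2 q.1.2.2) := by
    have h := (hG.comp measurable_Psi4).comp m4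
    simp only [Function.comp_def] at h
    exact h
  have m6 : Measurable fun q : ℝ × ℝ × ℝ => ∫⁻ v : ℝ, G (Psi q.2.1 q.1 v q.2.2) :=
    Measurable.lintegral_prod_right' m5
  exact tonelli3 (fun t s u => ∫⁻ v : ℝ, G (Psi s t v u)) m6

/-- Integration over the cusp box. -/
theorem lintegral_D1 (φ : ℂ × ℂ → ℝ≥0∞) (hφ : Measurable φ) :
    ∫⁻ z in D1, φ z.1 ∂mu = ENNReal.ofReal (1 / 2) *
      ∫⁻ u in Set.Ioi (1 : ℝ), ∫⁻ s in Set.Ico (0 : ℝ) 1, ∫⁻ t in Set.Ico (0 : ℝ) 1,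
        ∫⁻ v in Set.Ico (0 : ℝ) 2, ENNReal.ofReal (u⁻¹ ^ 3) * φ (Psi s t v u) := by
  set S : Set (ℂ × ℂ) := {z | 1 < height z ∧ sc z ∈ Set.Ico (0 : ℝ) 1 ∧ tc z ∈ Set.Ico (0 : ℝ) 1 ∧
    vc z ∈ Set.Ico (0 : ℝ) 2} with hS
  have hSm : MeasurableSet S := by
    have h2 : Continuous sc := by unfold sc; fun_prop
    have h3 : Continuous tc := by unfold tc; fun_prop
    have h4 : Continuous vc := by unfold vc; fun_prop
    exact (continuous_height.measurable measurableSet_Ioi).inter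
      ((h2.measurable measurableSet_Ico).inter
      ((h3.measurable measurableSet_Ico).inter (h4.measurable measurableSet_Ico)))
  have e1 : ∫⁻ z in D1, φ z.1 ∂mu = ∫⁻ z, (S.indicator φ) z.1 ∂mu := by
    rw [← lintegral_indicator measurableSet_D1]
    rfl
  rw [e1, lintegral_mu _ (hφ.indicator hSm), ← lintegral_indicator measurableSet_siegel]
  rw [lintegral_Psi]
  · congr 1
    rw [← lintegral_indicator measurableSet_Ioi]
    apply lintegral_congr; intro u
    by_cases hu : 1 < u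
    · rw [Set.indicator_of_mem (show u ∈ Set.Ioi 1 from hu), ← lintegral_indicator measurableSet_Ico]
      apply lintegral_congr; intro s
      by_cases hs : s ∈ Set.Ico (0 : ℝ) 1
      · rw [Set.indicator_of_mem hs, ← lintegral_indicator measurableSet_Ico]
        apply lintegral_congr; intro t
        by_cases ht : t ∈ Set.Ico (0 : ℝ) 1
        · rw [Set.indicator_of_mem ht, ← lintegral_indicator measurableSet_Ico]
          apply lintegral_congr; intro v
          have hu0 : Psi s t v u ∈ {z : ℂ × ℂ | 0 < height z} := by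
            show 0 < height (Psi s t v u)
            rw [height_Psi]; linarith
          rw [Set.indicator_of_mem hu0, height_Psi]
          by_cases hv : v ∈ Set.Ico (0 : ℝ) 2
          · rw [Set.indicator_of_mem hv, Set.indicator_of_mem]
            exact ⟨by rw [height_Psi]; exact hu, by rw [sc_Psi]; exact hs,
              by rw [tc_Psi]; exact ht, by rw [vc_Psi]; exact hv⟩
          · rw [Set.indicator_of_notMem hv, Set.indicator_of_notMem, mul_zero]
            rintro ⟨-, -, -, h⟩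
            rw [vc_Psi] at h; exact hv h
        · rw [Set.indicator_of_notMem ht]
          rw [lintegral_eq_zero_of_ae_eq_zero]
          apply Filter.Eventually.of_forall; intro v
          have : Psi s t v u ∉ S := by
            rintro ⟨-, -, h, -⟩; rw [tc_Psi] at h; exact ht h
          simp only [Set.indicator_apply, if_neg this, mul_zero, ite_self, Pi.zero_apply]
      · rw [Set.indicator_of_notMem hs]
        rw [lintegral_eq_zero_of_ae_eq_zero]
        apply Filter.Eventually.of_forall; intro t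
        simp only [Pi.zero_apply]
        rw [lintegral_eq_zero_of_ae_eq_zero]
        apply Filter.Eventually.of_forall; intro v
        have : Psi s t v u ∉ S := by
          rintro ⟨-, h, -, -⟩; rw [sc_Psi] at h; exact hs h
        simp only [Set.indicator_apply, if_neg this, mul_zero, ite_self, Pi.zero_apply]
    · rw [Set.indicator_of_notMem (show u ∉ Set.Ioi 1 from hu)]
      rw [lintegral_eq_zero_of_ae_eq_zero]
      apply Filter.Eventually.of_forall; intro s
      simp only [Pi.zero_apply]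
      rw [lintegral_eq_zero_of_ae_eq_zero]
      apply Filter.Eventually.of_forall; intro t
      simp only [Pi.zero_apply]
      rw [lintegral_eq_zero_of_ae_eq_zero]
      apply Filter.Eventually.of_forall; intro v
      have : Psi s t v u ∉ S := by
        rintro ⟨h, -, -, -⟩; rw [height_Psi] at h; exact hu h
      simp only [Set.indicator_apply, if_neg this, mul_zero, ite_self, Pi.zero_apply]
  · exact (measurable_dens.mul (hφ.indicator hSm)).indicator measurableSet_siegel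

end

end Pool.Agent.Lib.H56.Gauss
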