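import Pool.Agent.Lib.H56.Gauss.Cover
import Pool.Agent.Lib.H56.Picard.Count

/-!
# Counting the cusps of height larger than one, Gaussian case
-/

namespace Pool.Agent.Lib.H56.Gauss

open Matrix hiding J
open MeasureTheory
open Pool.Agent.Lib.H56.Picard (SU21 mat mat_mul mat_one mat_unitary mat_inv mkSU mat_mkSU TM TM_unitary
  T mat_T act_TM inv0 jf_inv0 row_null unitary_right jf jf_apply act lift J height X mulVec_lift_apply
  jf_ne_zero arith key_identity norm_c_le norm_b_le norm_a_le jf_one smul_T_val jf_T height_T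
  normSq_jf_inv height_smul smul_val jf_mul qq bet qq_eq qq_re height_gt_one_iff dist_facts
  row_eq_of_div qq_sub)

noncomputable section

/-- residue class modulo `2` of the imaginary part -/
def cls (x : ℂ) : ZMod 2 := ((⌊x.im⌋ : ℤ) : ZMod 2)

lemma cls_gi (a b : ℤ) : cls (gi a b) = (b : ZMod 2) := by
  rw [cls, gi_im, Int.floor_intCast]

/-- label of a unit -/
def ul (x : ℂ) : Bool × Bool := by
  classical
  exact (decide (x = 1 ∨ x = Complex.I), decide (x = 1 ∨ x = -1))

lemma ul_inj {x y : ℂ} (hx : x ∈ O) (hy : y ∈ O) (h1 : Complex.normSq x = 1)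
    (h2 : Complex.normSq y = 1) (h : ul x = ul y) : x = y := by
  have a1 : (1 : ℂ) ≠ Complex.I := by intro h; have := congrArg Complex.re h; simp at this
  have a2 : (1 : ℂ) ≠ -1 := by norm_num
  have a3 : (1 : ℂ) ≠ -Complex.I := by intro h; have := congrArg Complex.re h; simp at this
  have a4 : (-1 : ℂ) ≠ Complex.I := by intro h; have := congrArg Complex.re h; simp at this
  have a5 : (-1 : ℂ) ≠ -Complex.I := by intro h; have := congrArg Complex.re h; simp at this
  have a6 : -Complex.I ≠ Complex.I := by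
    intro h; have := congrArg Complex.im h; norm_num at this
  unfold ul at h
  rw [Prod.mk.injEq, decide_eq_decide, decide_eq_decide] at h
  rcases unit_cases hx h1 with rfl | rfl | rfl | rfl <;>
    rcases unit_cases hy h2 with rfl | rfl | rfl | rfl <;>
    first
    | rfl
    | (exfalso; simp [a1, a1.symm, a2, a2.symm, a3, a3.symm, a4, a4.symm, a5, a5.symm, a6,
        a6.symm] at h)

/-- the vertical coordinate -/
def tt (g : SU21) (z : ℂ × ℂ) : ℝ := 2 * (qq g z).im

lemma normSq_jf (g : SU21) (z : ℂ × ℂ) (hc : mat g 2 0 ≠ 0) :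
    4 * Complex.normSq (jf (mat g) z) = Complex.normSq (mat g 2 0) *
      ((height z + Complex.normSq (z.2 - bet g)) ^ 2 + tt g z ^ 2) := by
  have h1 : jf (mat g) z = mat g 2 0 * qq g z := by rw [qq]; field_simp
  have h2 := qq_re g z hc
  have h3 : height z + Complex.normSq (z.2 - bet g) = -(2 * (qq g z).re) := by linarith
  rw [h3, h1, map_mul, tt, Complex.normSq_apply (qq g z)]
  ring

/-- The label of a group element. -/
def label (g : SU21) (z : ℂ × ℂ) : Option (Option (ZMod 2 × Bool)) × (Bool × Bool) := by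
  classical
  exact
  if mat g 2 0 = 0 then (none, ul (mat g 2 2))
  else if Complex.normSq (mat g 2 0) = 1 then
    (some (some (cls (bet g), decide (0 ≤ tt g z))), ul (mat g 2 0))
  else (some none, ul (mat g 2 0 / pp))

section facts

variable {g h : SU21} {z : X}

lemma norm_c_cases (hg : g ∈ Gam) (hz : 1 < height z.1) (h1 : 1 < height (g • z : X).1)
    (hc : mat g 2 0 ≠ 0) : Complex.normSq (mat g 2 0) = 1 ∨ Complex.normSq (mat g 2 0) = 2 := by
  rw [height_gt_one_iff] at h1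
  have h2 := normSq_jf g z.1 hc
  apply normSq_lt_four (hg 2 0) hc
  set N := Complex.normSq (mat g 2 0)
  set ρ := Complex.normSq (z.1.2 - bet g)
  have hρ : 0 ≤ ρ := Complex.normSq_nonneg _
  have hN : 0 ≤ N := Complex.normSq_nonneg _
  have h3 : N * (height z.1 ^ 2) ≤ N * ((height z.1 + ρ) ^ 2 + tt g z.1 ^ 2) := by
    gcongr
    nlinarith [sq_nonneg (tt g z.1)]
  by_contra hcon
  push Not at hcon
  nlinarith

/-- numerical facts for a row with `|c|² = 1` -/
lemma num_one {u ρ T : ℝ} (hu : 1 < u) (hρ : 0 ≤ ρ) (h : (u + ρ) ^ 2 + T ^ 2 < 4 * u) :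
    ρ < 1 ∧ T ^ 2 < 4 := by
  constructor
  · by_contra hcon
    push Not at hcon
    nlinarith [sq_nonneg T, sq_nonneg (u - 1)]
  · nlinarith [sq_nonneg (u - 2)]

lemma num_two {u ρ T : ℝ} (hu : 1 < u) (hρ : 0 ≤ ρ) (h : (u + ρ) ^ 2 + T ^ 2 < 2 * u) :
    ρ < 1 / 2 ∧ T ^ 2 < 1 := by
  constructor
  · by_contra hcon
    push Not at hcon
    nlinarith [sq_nonneg T]
  · nlinarith

/-- The middle entry has even norm. -/
lemma normSq_mid (hg : g ∈ Gam) : ∃ n : ℤ, Complex.normSq (mat g 2 1) = 2 * n ∧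
    ((n : ℤ) : ℝ) = -(mat g 2 0 * star (mat g 2 2)).re := by
  obtain ⟨a, b, hab⟩ := O.mul_mem (hg 2 0) (star_mem_O _ (hg 2 2))
  have hnull := congrArg Complex.re (row_null g)
  have h1 : (mat g 2 1 * star (mat g 2 1)).re = Complex.normSq (mat g 2 1) := by
    rw [Complex.normSq_apply]; simp
  have h2 : (mat g 2 2 * star (mat g 2 0)).re = (mat g 2 0 * star (mat g 2 2)).re := by
    simp; ring
  rw [Complex.add_re, Complex.add_re, h1, h2, hab, gi_re, Complex.zero_re] at hnull
  refine ⟨-a, ?_, ?_⟩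
  · push_cast; linarith
  · rw [hab, gi_re]; push_cast; ring

/-- data of a row with `|c|² = 1` -/
lemma data_one (hg : g ∈ Gam) (h1 : 1 < height (g • z : X).1)
    (hc : Complex.normSq (mat g 2 0) = 1) :
    mat g 2 0 ≠ 0 ∧ (∃ a b : ℤ, bet g = gi a b ∧ (a + b) % 2 = 0) ∧
    mat g 2 2 / mat g 2 0 ∈ O ∧
    (height z.1 + Complex.normSq (z.1.2 - bet g)) ^ 2 + tt g z.1 ^ 2 < 4 * height z.1 := by
  obtain ⟨hne, hinv⟩ := unit_inv (hg 2 0) hc
  have hb : bet g ∈ O := by
    rw [bet, div_eq_mul_inv]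
    exact star_mem_O _ (O.mul_mem (hg 2 1) hinv)
  refine ⟨hne, ?_, ?_, ?_⟩
  · obtain ⟨a, b, hab⟩ := hb
    refine ⟨a, b, hab, ?_⟩
    obtain ⟨n, hn, -⟩ := normSq_mid hg
    have h2 : Complex.normSq (bet g) = 2 * n := by
      rw [bet, Complex.star_def, Complex.normSq_conj, map_div₀, hc, hn, div_one]
    rw [hab, normSq_gi] at h2
    have h3 : a ^ 2 + b ^ 2 = 2 * n := by exact_mod_cast h2
    have h4 : (2 : ℤ) ∣ (a + b) ^ 2 := ⟨n + a * b, by linear_combination h3⟩
    exact Int.emod_eq_zero_of_dvd (Int.prime_two.dvd_of_dvd_pow h4)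
  · rw [div_eq_mul_inv]
    exact O.mul_mem (hg 2 2) hinv
  · rw [height_gt_one_iff] at h1
    have h2 := normSq_jf g z.1 hne
    rw [hc] at h2
    linarith

/-- The third row is primitive. -/
lemma primitive (hg : g ∈ Gam) {x y w : ℂ} (hx : x ∈ O) (hy : y ∈ O) (hw : w ∈ O)
    (h0 : mat g 2 0 = pp * x) (h1 : mat g 2 1 = pp * y) (h2 : mat g 2 2 = pp * w) : False := by
  have hdet : (mat g).det = 1 := g.2.2
  rw [Matrix.det_fin_three, h0, h1, h2] at hdet
  set S := mat g 0 0 * mat g 1 1 * w - mat g 0 0 * mat g 1 2 * y - mat g 0 1 * mat g 1 0 * w +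
    mat g 0 1 * mat g 1 2 * x + mat g 0 2 * mat g 1 0 * y - mat g 0 2 * mat g 1 1 * x with hS
  have hSO : S ∈ O := by
    refine O.sub_mem (O.add_mem (O.add_mem (O.sub_mem (O.sub_mem ?_ ?_) ?_) ?_) ?_) ?_
    all_goals exact O.mul_mem (O.mul_mem (hg _ _) (hg _ _)) (by assumption)
  have h3 : pp * S = 1 := by rw [hS]; linear_combination hdet
  have h4 := congrArg Complex.normSq h3
  rw [map_mul, normSq_pp, map_one] at h4
  obtain ⟨n, -, hn⟩ := normSq_mem_O hSO
  rw [hn] at h4
  have h5 : 2 * n = 1 := by exact_mod_cast h4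
  omega

/-- data of a row with `|c|² = 2` -/
lemma data_two (hg : g ∈ Gam) (h1 : 1 < height (g • z : X).1)
    (hc : Complex.normSq (mat g 2 0) = 2) :
    mat g 2 0 ≠ 0 ∧ (∃ a b : ℤ, bet g = gi a b ∧ (a + b) % 2 = 1) ∧
    (mat g 2 0 / pp ∈ O ∧ Complex.normSq (mat g 2 0 / pp) = 1) ∧
    mat g 2 2 / (mat g 2 0 / pp) ∈ O ∧
    (height z.1 + Complex.normSq (z.1.2 - bet g)) ^ 2 + tt g z.1 ^ 2 < 2 * height z.1 := by
  have hne : mat g 2 0 ≠ 0 := by intro h; rw [h] at hc; simp at hc
  obtain ⟨e, he, hen, hce⟩ := normSq_two (hg 2 0) hc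
  have hdiv : mat g 2 0 / pp = e := by rw [hce]; field_simp [pp_ne_zero]
  obtain ⟨hene, heinv⟩ := unit_inv he hen
  obtain ⟨n, hn, hn2⟩ := normSq_mid hg
  obtain ⟨b', hb', hbb⟩ := pp_dvd (hg 2 1) hn
  have hb'n : Complex.normSq b' = n := by
    rw [hbb, map_mul, normSq_pp] at hn
    linarith
  have hbet : bet g = star (b' * e⁻¹) := by
    rw [bet, hbb, hce]
    congr 1
    field_simp [pp_ne_zero]
  refine ⟨hne, ?_, ⟨by rw [hdiv]; exact he, by rw [hdiv]; exact hen⟩, ?_, ?_⟩
  · have hbO : bet g ∈ O := by rw [hbet]; exact star_mem_O _ (O.mul_mem hb' heinv)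
    obtain ⟨p, q, hpq⟩ := hbO
    refine ⟨p, q, hpq, ?_⟩
    have h2 : Complex.normSq (bet g) = n := by
      rw [hbet, Complex.star_def, Complex.normSq_conj, map_mul, map_inv₀, hen, hb'n]; simp
    rw [hpq, normSq_gi] at h2
    have h3 : p ^ 2 + q ^ 2 = n := by exact_mod_cast h2
    obtain ⟨x, y, hxy⟩ := O.mul_mem he (star_mem_O _ (hg 2 2))
    have h4 : n = y - x := by
      have h5 : mat g 2 0 * star (mat g 2 2) = pp * gi x y := by rw [← hxy, hce]; ring
      rw [h5, pp, gi_mul, gi_re] at hn2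
      have : (n : ℝ) = ((y - x : ℤ) : ℝ) := by rw [hn2]; push_cast; ring
      exact_mod_cast this
    by_contra hodd
    have heven : (p + q) % 2 = 0 := by omega
    obtain ⟨k, hk⟩ : ∃ k, p + q = 2 * k := ⟨(p + q) / 2, by omega⟩
    have h6 : (2 : ℤ) ∣ n := by
      rw [← h3]
      exact ⟨2 * k ^ 2 - p * q, by
        have : q = 2 * k - p := by linarith
        rw [this]; ring⟩
    have h7 : (2 : ℤ) ∣ y - x := by rw [← h4]; exact h6
    obtain ⟨m, hm⟩ := h7
    have h8 : Complex.normSq (mat g 2 2) = 2 * ((x ^ 2 + 2 * m * x + 2 * m ^ 2 : ℤ) : ℝ) := by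
      have h9 : Complex.normSq (e * star (mat g 2 2)) = Complex.normSq (mat g 2 2) := by
        rw [map_mul, hen, one_mul, Complex.star_def, Complex.normSq_conj]
      rw [← h9, hxy, normSq_gi]
      have : y = x + 2 * m := by linarith
      rw [this]; push_cast; ring
    obtain ⟨a', ha', haa⟩ := pp_dvd (hg 2 2) h8
    exact primitive hg he hb' ha' (by rw [hce]; ring) hbb haa
  · rw [hdiv, div_eq_mul_inv]
    exact O.mul_mem (hg 2 2) heinv
  · rw [height_gt_one_iff] at h1
    have h2 := normSq_jf g z.1 hne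
    rw [hc] at h2
    linarith

/-- case `|c|² = 1` for both -/
lemma case_one_one (hg : g ∈ Gam) (hh : h ∈ Gam) (hz : 1 < height z.1)
    (h1 : 1 < height (g • z : X).1) (h2 : 1 < height (h • z : X).1)
    (hcg : Complex.normSq (mat g 2 0) = 1) (hch : Complex.normSq (mat h 2 0) = 1)
    (hcl : cls (bet g) = cls (bet h)) (hs : 0 ≤ tt g z.1 ↔ 0 ≤ tt h z.1) :
    bet g = bet h ∧ mat g 2 2 / mat g 2 0 = mat h 2 2 / mat h 2 0 := by
  obtain ⟨g0, ⟨a, b, gb, gab⟩, ga, gn⟩ := data_one hg h1 hcg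
  obtain ⟨h0, ⟨c, d, hb, hcd⟩, ha, hn⟩ := data_one hh h2 hch
  have gρ := num_one hz (Complex.normSq_nonneg _) gn
  have hρ := num_one hz (Complex.normSq_nonneg _) hn
  have hbet : bet g = bet h := by
    have hd := dist_facts (x := bet g) (y := bet h) (z := z.1.2) (a := 1) (b := 1)
      (by norm_num) (by norm_num) (by simpa using gρ.1) (by simpa using hρ.1)
    norm_num at hd
    rw [gb, hb] at hd hcl ⊢
    rw [cls_gi, cls_gi, ZMod.intCast_eq_intCast_iff] at hcl
    have h3 : (b - d) % 2 = 0 := Int.emod_eq_zero_of_dvd (Int.modEq_iff_dvd.mp hcl.symm)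
    exact eq_of_cong_two (by omega) h3 hd
  refine ⟨hbet, ?_⟩
  obtain ⟨hq, hre⟩ := qq_sub (z := z) g0 h0 hbet
  obtain ⟨m, n, hmn⟩ := O.sub_mem ga ha
  have hm0 : m = 0 := by
    rw [hmn, gi_re] at hre
    exact_mod_cast hre
  have hT : tt g z.1 - tt h z.1 = 2 * n := by
    have : (qq g z.1 - qq h z.1).im = n := by rw [hq, hmn, gi_im]
    rw [Complex.sub_im] at this
    rw [tt, tt]; linarith
  have hn0 : n = 0 := by
    have gT4 : tt g z.1 < 2 := by nlinarith [gρ.2]
    have gT4' : -2 < tt g z.1 := by nlinarith [gρ.2]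
    have hT4 : tt h z.1 < 2 := by nlinarith [hρ.2]
    have hT4' : -2 < tt h z.1 := by nlinarith [hρ.2]
    by_cases hg3 : 0 ≤ tt g z.1
    · have hh3 := hs.mp hg3
      have m1 : (n : ℝ) < 1 := by linarith
      have m2 : (-1 : ℝ) < n := by linarith
      have m3 : n < 1 := by exact_mod_cast m1
      have m4 : -1 < n := by exact_mod_cast m2
      omega
    · have hh3 : ¬ 0 ≤ tt h z.1 := fun h => hg3 (hs.mpr h)
      push Not at hg3 hh3
      have m1 : (n : ℝ) < 1 := by linarith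
      have m2 : (-1 : ℝ) < n := by linarith
      have m3 : n < 1 := by exact_mod_cast m1
      have m4 : -1 < n := by exact_mod_cast m2
      omega
  rw [hm0, hn0, gi_zero] at hmn
  exact sub_eq_zero.mp hmn

lemma div_pp (p q : ℤ) : (gi p q / pp).re = (p + q) / 2 ∧ (gi p q / pp).im = (q - p) / 2 := by
  have h1 : gi p q / pp = ⟨(p + q) / 2, (q - p) / 2⟩ := by
    rw [div_eq_iff pp_ne_zero]
    apply Complex.ext
    · simp [gi, pp]; ring
    · simp [gi, pp]; ring
  rw [h1]
  exact ⟨rfl, rfl⟩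

/-- case `|c|² = 2` for both -/
lemma case_two_two (hg : g ∈ Gam) (hh : h ∈ Gam) (hz : 1 < height z.1)
    (h1 : 1 < height (g • z : X).1) (h2 : 1 < height (h • z : X).1)
    (hcg : Complex.normSq (mat g 2 0) = 2) (hch : Complex.normSq (mat h 2 0) = 2) :
    bet g = bet h ∧ mat g 2 2 / mat g 2 0 = mat h 2 2 / mat h 2 0 := by
  obtain ⟨g0, ⟨a, b, gb, gab⟩, ⟨ge, gen⟩, ⟨p, q, hpq⟩, gn⟩ := data_two hg h1 hcg
  obtain ⟨h0, ⟨c, d, hb, hcd⟩, ⟨he, hen⟩, ⟨p', q', hpq'⟩, hn⟩ := data_two hh h2 hch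
  have gρ := num_two hz (Complex.normSq_nonneg _) gn
  have hρ := num_two hz (Complex.normSq_nonneg _) hn
  have hbet : bet g = bet h := by
    have h12 : (√(1 / 2) : ℝ) ^ 2 = 1 / 2 := Real.sq_sqrt (by norm_num)
    have hd := dist_facts (x := bet g) (y := bet h) (z := z.1.2) (a := √(1 / 2)) (b := √(1 / 2))
      (Real.sqrt_nonneg _) (Real.sqrt_nonneg _) (by rw [h12]; exact gρ.1) (by rw [h12]; exact hρ.1)
    have h3 : (√(1 / 2) + √(1 / 2) : ℝ) ^ 2 = 2 := by nlinarith
    rw [h3] at hd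
    rw [gb, hb] at hd ⊢
    exact eq_of_dist_lt_two (by omega) hd
  refine ⟨hbet, ?_⟩
  obtain ⟨hq, hre⟩ := qq_sub (z := z) g0 h0 hbet
  have ea : mat g 2 2 / mat g 2 0 = gi p q / pp := by
    rw [← hpq]; field_simp [pp_ne_zero]
  have eb : mat h 2 2 / mat h 2 0 = gi p' q' / pp := by
    rw [← hpq']; field_simp [pp_ne_zero]
  rw [ea, eb] at hq hre ⊢
  rw [Complex.sub_re, (div_pp p q).1, (div_pp p' q').1] at hre
  have hs : p + q = p' + q' := by
    have : ((p + q : ℤ) : ℝ) = ((p' + q' : ℤ) : ℝ) := by push_cast; linarith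
    exact_mod_cast this
  have hT : tt g z.1 - tt h z.1 = 2 * ((p' - p : ℤ) : ℝ) := by
    have h4 : (qq g z.1 - qq h z.1).im = (q - p) / 2 - (q' - p') / 2 := by
      rw [hq, Complex.sub_im, (div_pp p q).2, (div_pp p' q').2]
    rw [Complex.sub_im] at h4
    have hs' : (p : ℝ) + q = p' + q' := by exact_mod_cast hs
    rw [tt, tt]; push_cast; linarith
  have gT : tt g z.1 < 1 := by nlinarith [gρ.2]
  have gT' : -1 < tt g z.1 := by nlinarith [gρ.2]
  have hT1 : tt h z.1 < 1 := by nlinarith [hρ.2]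
  have hT1' : -1 < tt h z.1 := by nlinarith [hρ.2]
  have m1 : ((p' - p : ℤ) : ℝ) < 1 := by linarith
  have m2 : (-1 : ℝ) < ((p' - p : ℤ) : ℝ) := by linarith
  have m3 : p' - p < 1 := by exact_mod_cast m1
  have m4 : -1 < p' - p := by exact_mod_cast m2
  have e1 : p = p' := by omega
  have e2 : q = q' := by omega
  rw [e1, e2]

/-- Equal labels force equal third rows. -/
theorem label_inj (hg : g ∈ Gam) (hh : h ∈ Gam) (hz : 1 < height z.1)
    (h1 : 1 < height (g • z : X).1) (h2 : 1 < height (h • z : X).1)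
    (hl : label g z.1 = label h z.1) : ∀ i, mat g 2 i = mat h 2 i := by
  unfold label at hl
  by_cases cg : mat g 2 0 = 0
  · by_cases ch : mat h 2 0 = 0
    · rw [if_pos cg, if_pos ch, Prod.mk.injEq] at hl
      obtain ⟨gb, -, gn, -⟩ := upper g hg cg
      obtain ⟨hb, -, hn, -⟩ := upper h hh ch
      intro i
      fin_cases i
      · show mat g 2 0 = mat h 2 0
        rw [cg, ch]
      · show mat g 2 1 = mat h 2 1
        rw [gb, hb]
      · exact ul_inj (hg 2 2) (hh 2 2) gn hn hl.2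
    · exfalso
      rw [if_pos cg, if_neg ch] at hl
      split_ifs at hl <;> simp at hl
  · by_cases ch : mat h 2 0 = 0
    · exfalso
      rw [if_neg cg, if_pos ch] at hl
      split_ifs at hl <;> simp at hl
    · rw [if_neg cg, if_neg ch] at hl
      rcases norm_c_cases hg hz h1 cg with ng | ng <;> rcases norm_c_cases hh hz h2 ch with nh | nh
      · rw [if_pos ng, if_pos nh] at hl
        simp only [Prod.mk.injEq, Option.some.injEq, decide_eq_decide] at hl
        have hcase := case_one_one hg hh hz h1 h2 ng nh hl.1.1 hl.1.2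
        have hc := ul_inj (hg 2 0) (hh 2 0) ng nh hl.2
        have h5 := row_eq_of_div (ν := 1) (by rw [one_mul]; exact hc) ch cg hcase.1 hcase.2
        intro i
        rw [h5 i, one_mul]
      · exfalso
        have nh1 : ¬ Complex.normSq (mat h 2 0) = 1 := by rw [nh]; norm_num
        rw [if_pos ng, if_neg nh1] at hl
        simp at hl
      · exfalso
        have ng1 : ¬ Complex.normSq (mat g 2 0) = 1 := by rw [ng]; norm_num
        rw [if_neg ng1, if_pos nh] at hl
        simp at hl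
      · have ng1 : ¬ Complex.normSq (mat g 2 0) = 1 := by rw [ng]; norm_num
        have nh1 : ¬ Complex.normSq (mat h 2 0) = 1 := by rw [nh]; norm_num
        rw [if_neg ng1, if_neg nh1, Prod.mk.injEq] at hl
        have hcase := case_two_two hg hh hz h1 h2 ng nh
        obtain ⟨-, -, ⟨ge, gen⟩, -, -⟩ := data_two hg h1 ng
        obtain ⟨-, -, ⟨he, hen⟩, -, -⟩ := data_two hh h2 nh
        have hc' := ul_inj ge he gen hen hl.2
        have hc : mat g 2 0 = mat h 2 0 := by
          rw [div_eq_div_iff pp_ne_zero pp_ne_zero] at hc'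
          exact mul_right_cancel₀ pp_ne_zero hc'
        have h5 := row_eq_of_div (ν := 1) (by rw [one_mul]; exact hc) ch cg hcase.1 hcase.2
        intro i
        rw [h5 i, one_mul]

end facts

end

end Pool.Agent.Lib.H56.Gauss
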