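import Pool.Agent.Lib.H56.Gauss.Heis
import Pool.Agent.Lib.H56.Picard.Cover

/-!
# Covering: every orbit of `SU(2,1;ℤ[i])` meets `{height ≥ 1}`
-/

namespace Pool.Agent.Lib.H56.Gauss

open Matrix hiding J
open MeasureTheory
open Pool.Agent.Lib.H56.Picard (SU21 mat mat_mul mat_one mat_unitary mat_inv mkSU mat_mkSU TM TM_unitary
  T mat_T act_TM inv0 jf_inv0 row_null unitary_right jf jf_apply act lift J height X mulVec_lift_apply
  jf_ne_zero arith key_identity norm_c_le norm_b_le norm_a_le jf_one smul_T_val jf_T height_T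
  normSq_jf_inv height_smul smul_val jf_mul)

noncomputable section

lemma finite_ball (R : ℝ) : {x : ℂ | x ∈ O ∧ ‖x‖ ≤ R}.Finite := by
  obtain ⟨n, hn⟩ := exists_nat_ge (R ^ 2)
  apply Set.Finite.subset ((Set.Finite.prod (Set.finite_Icc (-(n : ℤ)) n)
    (Set.finite_Icc (-(n : ℤ)) n)).image (fun p : ℤ × ℤ => gi p.1 p.2))
  rintro x ⟨⟨a, b, rfl⟩, hx⟩
  refine ⟨(a, b), ?_, rfl⟩
  have h1 : Complex.normSq (gi a b) ≤ R ^ 2 := by
    rw [Complex.normSq_eq_norm_sq]
    exact pow_le_pow_left₀ (norm_nonneg _) hx 2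
  rw [normSq_gi] at h1
  have h2 : ((a ^ 2 + b ^ 2) : ℤ) ≤ n := by
    have : (((a ^ 2 + b ^ 2) : ℤ) : ℝ) ≤ n := by linarith
    exact_mod_cast this
  have ha' : |a| ≤ a ^ 2 := by
    rcases eq_or_ne a 0 with rfl | h
    · simp
    · rw [← sq_abs]; nlinarith [Int.one_le_abs h]
  have hb' : |b| ≤ b ^ 2 := by
    rcases eq_or_ne b 0 with rfl | h
    · simp
    · rw [← sq_abs]; nlinarith [Int.one_le_abs h]
  have ha2 := sq_nonneg a
  have hb2 := sq_nonneg b
  simp only [Set.mem_prod, Set.mem_Icc]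
  constructor <;> rw [← abs_le] <;> linarith

/-- Third rows with bounded factor of automorphy form a finite set. -/
lemma finite_rows (z : ℂ × ℂ) (hz : 0 < height z) (C : ℝ) :
    {r : Fin 3 → ℂ | ∃ g ∈ Gam, mat g 2 = r ∧ ‖jf (mat g) z‖ ≤ C}.Finite := by
  set B : ℝ := 2 * C / height z with hB
  set B' : ℝ := 2 * C * (‖z.2‖ + 1) / height z + C with hB'
  set B'' : ℝ := C + B * ‖z.1‖ + B' * ‖z.2‖ with hB''
  have hfin : (Set.univ.pi fun _ : Fin 3 =>
      {x : ℂ | x ∈ O ∧ ‖x‖ ≤ max B (max B' B'')}).Finite :=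
    Set.Finite.pi fun _ => finite_ball _
  apply hfin.subset
  rintro r ⟨g, hg, rfl, hC⟩
  have hcn : 0 ≤ ‖jf (mat g) z‖ := norm_nonneg _
  have h0 : ‖mat g 2 0‖ ≤ B := by
    rw [hB, le_div_iff₀ hz]
    linarith [norm_c_le g z]
  have h1 : ‖mat g 2 1‖ ≤ B' := by
    refine (norm_b_le g z hz).trans ?_
    rw [hB']; gcongr
  have h2 : ‖mat g 2 2‖ ≤ B'' := by
    refine (norm_a_le g z).trans ?_
    rw [hB'']; gcongr
  intro i _
  fin_cases i
  · exact ⟨hg 2 0, h0.trans (le_max_left _ _)⟩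
  · exact ⟨hg 2 1, h1.trans ((le_max_left _ _).trans (le_max_right _ _))⟩
  · exact ⟨hg 2 2, h2.trans ((le_max_right _ _).trans (le_max_right _ _))⟩

/-- The maximal height in an orbit is attained. -/
lemma exists_max_height (z : X) : ∃ g ∈ Gam, ∀ h ∈ Gam,
    height (h • z : X).1 ≤ height (g • z : X).1 := by
  have hfin := finite_rows z.1 z.2 1
  have hne : {r : Fin 3 → ℂ | ∃ g ∈ Gam, mat g 2 = r ∧ ‖jf (mat g) z.1‖ ≤ 1}.Nonempty :=
    ⟨mat 1 2, 1, Gam.one_mem, rfl, by rw [mat_one, jf_one]; simp⟩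
  obtain ⟨r, ⟨g, hg, hgr, hg1⟩, hmin⟩ := Set.exists_min_image _
    (fun r : Fin 3 → ℂ => ‖r 0 * z.1.1 + r 1 * z.1.2 + r 2‖) hfin hne
  refine ⟨g, hg, fun h hh => ?_⟩
  have key : ‖jf (mat g) z.1‖ ≤ ‖jf (mat h) z.1‖ := by
    by_cases hh1 : ‖jf (mat h) z.1‖ ≤ 1
    · have := hmin (mat h 2) ⟨h, hh, rfl, hh1⟩
      simp only [← hgr] at this
      rw [jf_apply, jf_apply]
      exact this
    · exact hg1.trans (not_le.mp hh1).le
  rw [height_smul, height_smul]
  have hpos : 0 < Complex.normSq (jf (mat g) z.1) :=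
    Complex.normSq_pos.mpr (jf_ne_zero (mat_unitary g) z.2)
  apply div_le_div_of_nonneg_left z.2.le hpos
  rw [Complex.normSq_eq_norm_sq, Complex.normSq_eq_norm_sq]
  exact pow_le_pow_left₀ (norm_nonneg _) key 2

/-- For every `l ∈ O` of even norm there is `w ∈ O` with `2 Re w = -|l|²` and `Im w` in a given
window. -/
lemma exists_w {l : ℂ} {n : ℤ} (hn : Complex.normSq l = 2 * n) (v : ℝ) :
    ∃ w ∈ O, 2 * w.re = -Complex.normSq l ∧ v ≤ 2 * w.im ∧ 2 * w.im < v + 2 := by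
  refine ⟨gi (-n) ⌈v / 2⌉, gi_mem _ _, ?_, ?_, ?_⟩
  · rw [hn, gi_re]; push_cast; ring
  · rw [gi_im]
    have := Int.le_ceil (v / 2)
    linarith
  · rw [gi_im]
    have := Int.ceil_lt_add_one (v / 2)
    linarith

/-- Numerical lemma for the covering argument. -/
lemma cover_num {x y v r ρ : ℝ} (hr : r = x ^ 2 + y ^ 2) (hρ : ρ = 1 + r - 2 * x)
    (h1 : |y| ≤ x) (h2 : x + |y| ≤ 1) (hv0 : 0 ≤ v) (hv1 : v ≤ 1)
    (hbig : 4 < (1 + r) ^ 2 + v ^ 2) :
    (1 + ρ) ^ 2 + (v + 2 * y - 1) ^ 2 ≤ 2 := by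
  set t := 1 - x with ht
  have hx : x = 1 - t := by rw [ht]; ring
  have hy : |y| ≤ t := by linarith
  have ht0 : 0 ≤ t := (abs_nonneg y).trans hy
  have hy2 : y ^ 2 ≤ t ^ 2 := by
    rw [← sq_abs y]
    exact pow_le_pow_left₀ (abs_nonneg _) hy 2
  have hyx2 : y ^ 2 ≤ x ^ 2 := by
    rw [← sq_abs y]
    exact pow_le_pow_left₀ (abs_nonneg _) h1 2
  have hr0 : 0 ≤ r := by rw [hr]; positivity
  have hx0 : 0 ≤ x := (abs_nonneg y).trans h1
  have hr3 : 183 / 250 < r := by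
    by_contra hcon
    push Not at hcon
    have : (1 + r) ^ 2 ≤ (1 + 183 / 250) ^ 2 := by gcongr
    nlinarith
  have ht1 : t ≤ 4 / 25 := by
    by_contra hcon
    push Not at hcon
    rcases le_total x (1 / 2) with hx1 | hx1
    · nlinarith
    · nlinarith
  have hr1 : r ≤ 1 - 2 * t + 2 * t ^ 2 := by rw [hr, hx]; nlinarith
  have hv2 : 6 * t ≤ v ^ 2 := by
    have h5 : (1 + r) ^ 2 ≤ (2 - 2 * t + 2 * t ^ 2) ^ 2 := by
      apply pow_le_pow_left₀ <;> linarith
    have h6 : 0 ≤ t ^ 3 * (8 - 4 * t) := by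
      apply mul_nonneg (by positivity); linarith
    have h7 : 0 ≤ t * (2 - 12 * t) := by
      apply mul_nonneg ht0; linarith
    nlinarith
  have hv6 : 6 * t ≤ v := by nlinarith
  have hyb := abs_le.mp hy
  have hT : (v + 2 * y - 1) ^ 2 ≤ (1 - 4 * t) ^ 2 := by
    rw [← sq_abs (v + 2 * y - 1)]
    apply pow_le_pow_left₀ (abs_nonneg _)
    rw [abs_le]
    constructor <;> linarith [hyb.1, hyb.2]
  have hρ1 : ρ ≤ 2 * t ^ 2 := by rw [hρ, hx]; linarith
  have hρ0 : 0 ≤ ρ := by rw [hρ, hr]; nlinarith [sq_nonneg (x - 1), sq_nonneg y]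
  have hρ2 : (1 + ρ) ^ 2 ≤ (1 + 2 * t ^ 2) ^ 2 := by gcongr
  have h8 : 0 ≤ t * (8 - 20 * t - 4 * t ^ 3) := by
    apply mul_nonneg ht0
    have : t ^ 3 ≤ 1 := pow_le_one₀ ht0 (by linarith)
    linarith
  nlinarith

/-- Choice of the unit. -/
lemma exists_unit (z : ℂ) : ∃ e ∈ O, Complex.normSq e = 1 ∧ |(star e * z).im| ≤ (star e * z).re ∧
    (star e * z).re + |(star e * z).im| = |z.re| + |z.im| := by
  have e1 : Complex.normSq (gi 1 0) = 1 := by rw [normSq_gi]; simp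
  have e2 : Complex.normSq (gi (-1) 0) = 1 := by rw [normSq_gi]; simp
  have e3 : Complex.normSq (gi 0 1) = 1 := by rw [normSq_gi]; simp
  have e4 : Complex.normSq (gi 0 (-1)) = 1 := by rw [normSq_gi]; simp
  have hre : ∀ a b : ℤ, (star (gi a b) * z).re = a * z.re + b * z.im := by
    intro a b
    simp [gi_re, gi_im]
  have him : ∀ a b : ℤ, (star (gi a b) * z).im = a * z.im - b * z.re := by
    intro a b
    simp [gi_re, gi_im]; ring
  rcases le_total (|z.im|) (|z.re|) with h | h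
  · rcases le_total 0 z.re with hp | hp
    · refine ⟨gi 1 0, gi_mem _ _, e1, ?_, ?_⟩ <;> rw [hre, him] <;> push_cast <;>
        rw [abs_of_nonneg hp] at * <;> simp <;> linarith
    · refine ⟨gi (-1) 0, gi_mem _ _, e2, ?_, ?_⟩ <;> rw [hre, him] <;> push_cast <;>
        rw [abs_of_nonpos hp] at * <;> simp <;> linarith
  · rcases le_total 0 z.im with hp | hp
    · refine ⟨gi 0 1, gi_mem _ _, e3, ?_, ?_⟩ <;> rw [hre, him] <;> push_cast <;>
        rw [abs_of_nonneg hp] at * <;> simp <;> linarith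
    · refine ⟨gi 0 (-1), gi_mem _ _, e4, ?_, ?_⟩ <;> rw [hre, him] <;> push_cast <;>
        rw [abs_of_nonpos hp] at * <;> simp <;> linarith

lemma exists_reduced (z : X) : ∃ g ∈ Gam, |(g • z : X).1.2.re| + |(g • z : X).1.2.im| ≤ 1 ∧
    |2 * (g • z : X).1.1.im| ≤ 1 ∧ height (g • z : X).1 = height z.1 := by
  obtain ⟨x, hx, n, hn, hxn⟩ := exists_near z.1.2
  have hn' : Complex.normSq (-x) = 2 * n := by rw [Complex.normSq_neg, hn]
  obtain ⟨w, hw, hwr, hw1, hw2⟩ := exists_w hn' (-1 - 2 * (z.1.1 - star (-x) * z.1.2).im)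
  refine ⟨T (-x) w hwr, T_mem hwr (O.neg_mem hx) hw, ?_, ?_, height_T hwr z⟩
  · rw [smul_T_val]
    simpa [sub_eq_add_neg] using hxn
  · rw [smul_T_val, abs_le]
    have : (z.1.1 - star (-x) * z.1.2 + w).im = (z.1.1 - star (-x) * z.1.2).im + w.im := by simp
    simp only [this]
    constructor <;> linarith

/-- Below height one there is a group element increasing the height. -/
lemma descend (z : X) (hz : |z.1.2.re| + |z.1.2.im| ≤ 1) (hv : |2 * z.1.1.im| ≤ 1)
    (hu : height z.1 < 1) : ∃ g ∈ Gam, Complex.normSq (jf (mat g) z.1) < 1 := by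
  have hu0 := z.2
  set ρ := Complex.normSq z.1.2 with hρ
  have hρ0 : 0 ≤ ρ := Complex.normSq_nonneg _
  by_cases hbig : (1 + ρ) ^ 2 + (2 * z.1.1.im) ^ 2 ≤ 4
  · have h0 : 2 * (0 : ℂ).re = -Complex.normSq 0 := by simp
    refine ⟨inv0 * T 0 0 h0, Gam.mul_mem inv0_mem (T_mem h0 O.zero_mem O.zero_mem), ?_⟩
    rw [normSq_jf_inv]
    simp only [star_zero, zero_mul, sub_zero, add_zero, ← hρ]
    nlinarith
  · push Not at hbig
    obtain ⟨e, he, hen, hxy, hxy1⟩ := exists_unit z.1.2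
    set x := (star e * z.1.2).re with hxdef
    set y := (star e * z.1.2).im with hydef
    have hr : ρ = x ^ 2 + y ^ 2 := by
      have : Complex.normSq (star e * z.1.2) = ρ := by
        rw [map_mul, Complex.star_def, Complex.normSq_conj, hen, one_mul]
      rw [← this, Complex.normSq_apply]; ring
    have hn : Complex.normSq (z.1.2 - e) = 1 + ρ - 2 * x := by
      rw [hρ, hxdef]
      rw [Complex.normSq_apply] at hen ⊢
      simp [Complex.normSq_apply]
      linarith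
    have him : (z.1.1 + star e * z.1.2).im = z.1.1.im + y := by
      rw [hydef]; simp
    have hn0 := Complex.normSq_nonneg (z.1.2 - e)
    rcases le_total 0 (2 * z.1.1.im) with hv0 | hv0
    · rw [abs_of_nonneg hv0] at hv
      have h1 := cover_num hr hn hxy (by linarith) hv0 hv hbig
      refine ⟨dm e hen, dm_mem hen he, ?_⟩
      rw [normSq_jf_dm, him]
      have h2 : 2 * (z.1.1.im + y) - 1 = 2 * z.1.1.im + 2 * y - 1 := by ring
      rw [h2]
      nlinarith
    · rw [abs_of_nonpos hv0] at hv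
      have h1 := cover_num (y := -y) (v := -(2 * z.1.1.im)) (by rw [hr]; ring) hn
        (by rw [abs_neg]; exact hxy) (by rw [abs_neg]; linarith) (by linarith) hv (by nlinarith)
      refine ⟨dp e hen, dp_mem hen he, ?_⟩
      rw [normSq_jf_dp, him]
      have h2 : (2 * (z.1.1.im + y) + 1) ^ 2 = (-(2 * z.1.1.im) + 2 * -y - 1) ^ 2 := by ring
      rw [h2]
      nlinarith

/-- Every orbit meets `{height ≥ 1}`. -/
theorem exists_height_ge_one (z : X) : ∃ g ∈ Gam, 1 ≤ height (g • z : X).1 := by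
  obtain ⟨g, hg, hmax⟩ := exists_max_height z
  refine ⟨g, hg, ?_⟩
  by_contra hlt
  push Not at hlt
  obtain ⟨h, hh, hh1, hh2, hh3⟩ := exists_reduced (g • z)
  obtain ⟨k, hk, hk1⟩ := descend (h • g • z) hh1 hh2 (by rw [hh3]; exact hlt)
  have h1 := hmax (k * (h * g)) (Gam.mul_mem hk (Gam.mul_mem hh hg))
  rw [mul_smul, mul_smul, height_smul k, hh3] at h1
  have hpos : 0 < Complex.normSq (jf (mat k) (h • g • z : X).1) :=
    Complex.normSq_pos.mpr (jf_ne_zero (mat_unitary k) (h • g • z : X).2)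
  rw [div_le_iff₀ hpos] at h1
  have := (g • z : X).2
  nlinarith

end

end Pool.Agent.Lib.H56.Gauss
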