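import Pool.Agent.Lib.H56.Gauss.Gap
import Pool.Agent.Lib.H56.Picard.Final

/-!
# The eigenvalue bound for `SU(2,1;ℤ[i])`
-/

namespace Pool.Agent.Lib.H56.Gauss

open Matrix hiding J
open MeasureTheory
open scoped Pointwise ENNReal
open Pool.Agent.Lib.H56.Picard (SU21 mat mat_unitary lift height X mu jf act smul_val energy
  normL dv du measurableSet_siegel isOpen_siegel BB continuous_restrict continuousOn_normL
  energy_act height_act_pos T height_T smul_T_val arith U fixed_null pt mu_univ_ne_zero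
  jf_ne_zero mulVec_lift mu_apply mat_injective triple_comm laplacian green normL_nonneg)

noncomputable section

lemma one_le_norm_O : ∀ x ∈ O, x ≠ 0 → 1 ≤ ‖x‖ := by
  intro x hx h0
  have h := one_le_normSq hx h0
  rw [Complex.normSq_eq_norm_sq] at h
  nlinarith [norm_nonneg x]

/-- Every point can be moved to the closed box by a Heisenberg translation. -/
lemma exists_box' (z : X) : ∃ (l w : ℂ) (h : 2 * w.re = -Complex.normSq l),
    l ∈ O ∧ w ∈ O ∧ sc (T l w h • z : X).1 ∈ Set.Icc (0 : ℝ) 1 ∧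
      tc (T l w h • z : X).1 ∈ Set.Icc (0 : ℝ) 1 ∧
      vc (T l w h • z : X).1 ∈ Set.Icc (0 : ℝ) 2 := by
  set m : ℤ := -⌊sc z.1⌋ with hm
  set n : ℤ := -⌊tc z.1⌋ with hn
  obtain ⟨w, hw, hlw, h1, h2⟩ := exists_w (normSq_even m n)
    (-(2 * (z.1.1 - star (gi (m - n) (m + n)) * z.1.2).im))
  refine ⟨_, w, hlw, gi_mem _ _, hw, ?_, ?_, ?_⟩
  · rw [smul_T_val, sc_add]
    rw [hm]
    push_cast
    have h3 := Int.floor_le (sc z.1)
    have h4 := Int.lt_floor_add_one (sc z.1)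
    constructor <;> linarith
  · rw [smul_T_val, tc_add]
    rw [hn]
    push_cast
    have h3 := Int.floor_le (tc z.1)
    have h4 := Int.lt_floor_add_one (tc z.1)
    constructor <;> linarith
  · rw [smul_T_val, vc, Complex.add_im]
    constructor <;> linarith

/-- Compactness of the thick part. -/
lemma thick_compact (R : ℝ) : ∃ K : Set (ℂ × ℂ), IsCompact K ∧ K ⊆ U ∧ ∀ z ∈ U,
    (∀ γ : Gam, height (act (mat γ.1) z) ≤ R) → ∃ γ : Gam, act (mat γ.1) z ∈ K := by
  refine ⟨(fun p : ℝ × ℝ × ℝ × ℝ => Psi p.1 p.2.1 p.2.2.1 p.2.2.2) ''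
    (Set.Icc 0 1 ×ˢ Set.Icc 0 1 ×ˢ Set.Icc 0 2 ×ˢ Set.Icc 1 R), ?_, ?_, ?_⟩
  · exact (isCompact_Icc.prod (isCompact_Icc.prod (isCompact_Icc.prod isCompact_Icc))).image
      continuous_Psi4
  · rintro _ ⟨p, hp, rfl⟩
    show 0 < height (Psi _ _ _ _)
    rw [height_Psi]
    have := hp.2.2.2.1
    linarith
  · intro z hz hR
    obtain ⟨g, hg, h1⟩ := exists_height_ge_one ⟨z, hz⟩
    obtain ⟨l, w, hlw, hl, hw, hs, ht, hv⟩ := exists_box' (g • (⟨z, hz⟩ : X))
    refine ⟨⟨T l w hlw * g, Gam.mul_mem (T_mem hlw hl hw) hg⟩, ?_⟩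
    have e1 : act (mat (T l w hlw * g)) z = (T l w hlw • g • (⟨z, hz⟩ : X) : X).1 := by
      rw [← mul_smul, smul_val]
    rw [e1]
    refine ⟨(sc _, tc _, vc _, height _), ⟨hs, ht, hv, ?_, ?_⟩, Psi_coords _⟩
    · simp only [height_T]; exact h1
    · simp only [height_T]
      exact hR ⟨g, hg⟩

/-- The homomorphism to transformations. -/
def proj : Gam →* gpic where
  toFun g := toPic g.1 g.2
  map_one' := Subtype.ext (map_one (MulAction.toPermHom SU21 X))
  map_mul' g h := Subtype.ext (map_mul (MulAction.toPermHom SU21 X) g.1 h.1)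

lemma proj_smul (g : Gam) (z : X) : proj g • z = g • z := rfl

lemma proj_surjective : Function.Surjective proj := by
  rintro ⟨p, hp⟩
  obtain ⟨g, hg, rfl⟩ := hp
  exact ⟨⟨g, hg⟩, rfl⟩

/-- the kernel consists of scalars -/
lemma ker_scalar (g : Gam) (hg : proj g = 1) : ∃ ν : ℂ, mat g.1 = ν • (1 : Matrix _ _ ℂ) := by
  by_contra hM
  have h0 := fixed_null (mat g.1) hM
  have hall : ∀ z : X, g.1 • z = z := by
    intro z
    have h2 : proj g • z = (1 : gpic) • z := by rw [hg]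
    rwa [one_smul] at h2
  have hsub : (Subtype.val '' (Set.univ : Set X) : Set (ℂ × ℂ)) ⊆
      {z : ℂ × ℂ | (mat g.1 *ᵥ lift z) 0 = jf (mat g.1) z * z.1 ∧
        (mat g.1 *ᵥ lift z) 1 = jf (mat g.1) z * z.2} := by
    rintro _ ⟨z, hz, rfl⟩
    have hz' : act (mat g.1) z.1 = z.1 := by
      rw [← smul_val]; exact congrArg Subtype.val (hall z)
    have hj := jf_ne_zero (mat_unitary g.1) z.2
    have h1 := mulVec_lift hj
    rw [hz'] at h1
    constructor
    · rw [h1]; simp [lift]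
    · rw [h1]; simp [lift]
  have h1 : mu (Set.univ : Set X) = 0 := by
    rw [mu_apply MeasurableSet.univ]
    exact setLIntegral_measure_zero _ _ (measure_mono_null hsub h0)
  exact mu_univ_ne_zero h1

lemma finite_ker : Finite proj.ker := by
  have hfin : {x : ℂ | x ∈ O ∧ ‖x‖ ≤ 1}.Finite := finite_ball 1
  have : Finite {x : ℂ | x ∈ O ∧ ‖x‖ ≤ 1} := hfin
  have hmem : ∀ g : proj.ker, mat g.1.1 0 0 ∈ {x : ℂ | x ∈ O ∧ ‖x‖ ≤ 1} := by
    intro g
    refine ⟨g.1.2 0 0, ?_⟩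
    obtain ⟨ν, hν⟩ := ker_scalar g.1 g.2
    have hdet : (mat g.1.1).det = 1 := g.1.1.2.2
    rw [hν] at hdet
    simp at hdet
    rw [hν]
    simp only [Matrix.smul_apply, Matrix.one_apply_eq, smul_eq_mul, mul_one]
    have h1 : ‖ν‖ ^ 3 = 1 := by rw [← norm_pow, hdet, norm_one]
    by_contra hcon
    push Not at hcon
    have := one_lt_pow₀ hcon (n := 3) (by norm_num)
    linarith
  apply Finite.of_injective (fun g : proj.ker => (⟨mat g.1.1 0 0, hmem g⟩ :
    {x : ℂ | x ∈ O ∧ ‖x‖ ≤ 1}))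
  intro g h hgh
  have h1 : mat g.1.1 0 0 = mat h.1.1 0 0 := congrArg Subtype.val hgh
  obtain ⟨ν, hν⟩ := ker_scalar g.1 g.2
  obtain ⟨ν', hν'⟩ := ker_scalar h.1 h.2
  apply Subtype.ext
  apply Subtype.ext
  apply mat_injective
  rw [hν, hν'] at h1
  simp at h1
  rw [hν, hν', h1]

/-- fibres of a surjective homomorphism -/
lemma tsum_fiber (φ : gpic → ℝ≥0∞) :
    ∑' g : Gam, φ (proj g) = (ENat.card proj.ker : ℝ≥0∞) * ∑' p : gpic, φ p := by
  rw [← ENNReal.tsum_fiberwise _ (fun g : Gam => proj g), ← ENNReal.tsum_mul_left]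
  congr 1
  funext p
  have h1 : ∀ b : (fun g : Gam => proj g) ⁻¹' {p}, φ (proj b.1) = φ p := by
    intro b
    have : proj b.1 = p := b.2
    rw [this]
  rw [tsum_congr h1, ENNReal.tsum_const]
  congr 2
  obtain ⟨g0, hg0⟩ := proj_surjective p
  apply ENat.card_congr
  refine ⟨fun b => ⟨g0⁻¹ * b.1, ?_⟩, fun k => ⟨g0 * k.1, ?_⟩, ?_, ?_⟩
  · rw [MonoidHom.mem_ker, map_mul, map_inv, hg0]
    have : proj b.1 = p := b.2
    rw [this]; simp
  · show proj (g0 * k.1) = p
    have := k.2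
    rw [MonoidHom.mem_ker] at this
    rw [map_mul, this, hg0, mul_one]
  · intro b; simp
  · intro k; simp

/-- The weight attached to a fundamental domain. -/
lemma weight_sum {F : Set X} (hF : IsFundamentalDomain gpic F mu) {F' : Set X}
    (hF' : F' =ᵐ[mu] F) : ∀ᵐ z ∂mu, ∑' p : gpic, F'.indicator (1 : X → ℝ≥0∞) (p • z) = 1 := by
  have h1 : ∀ᵐ z ∂mu, ∀ p : gpic, (p • z ∈ F' ↔ p • z ∈ F) := by
    rw [ae_all_iff]
    intro p
    have := (measurePreserving_smul p mu).quasiMeasurePreserving.ae hF'.mem_iff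
    exact this
  have h2 : ∀ᵐ z ∂mu, ∀ p q : gpic, p ≠ q → ¬(p • z ∈ F ∧ q • z ∈ F) := by
    rw [ae_all_iff]
    intro p
    rw [ae_all_iff]
    intro q
    by_cases hpq : p = q
    · exact Filter.Eventually.of_forall fun z h => absurd hpq h
    · have h3 : mu ((p⁻¹ • F) ∩ (q⁻¹ • F)) = 0 :=
        hF.aedisjoint (fun h => hpq (inv_injective h))
      have h4 : ∀ᵐ z ∂mu, z ∉ (p⁻¹ • F) ∩ (q⁻¹ • F) := measure_eq_zero_iff_ae_notMem.mp h3
      filter_upwards [h4] with z hz _ hcon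
      apply hz
      constructor
      · rw [Set.mem_inv_smul_set_iff]; exact hcon.1
      · rw [Set.mem_inv_smul_set_iff]; exact hcon.2
  filter_upwards [h1, h2, hF.ae_covers] with z hz1 hz2 hz3
  obtain ⟨p, hp⟩ := hz3
  rw [tsum_eq_single p]
  · rw [Set.indicator_of_mem ((hz1 p).mpr hp)]; rfl
  · intro q hq
    apply Set.indicator_of_notMem
    intro hcon
    exact hz2 q p hq ⟨(hz1 q).mp hcon, hp⟩

lemma cont_fixed {f : ℂ × ℂ → ℂ} (hf : ContinuousOn f {z : ℂ × ℂ | 0 < height z}) {u : ℝ}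
    (hu : 0 < u) : Continuous fun p : ℝ × ℝ × ℝ => f (Psi p.1 p.2.1 p.2.2 u) := by
  have h1 : Continuous fun p : ℝ × ℝ × ℝ => Psi p.1 p.2.1 p.2.2 u :=
    continuous_Psi4.comp (by fun_prop : Continuous fun p : ℝ × ℝ × ℝ => (p.1, p.2.1, p.2.2, u))
  apply hf.comp_continuous h1
  intro p
  show 0 < height _
  rw [height_Psi]; exact hu

/-- **Main theorem.** -/
theorem eigenvalue_bound {F : Set X} (hF : IsFundamentalDomain gpic F mu)
    {f : ℂ × ℂ → ℂ} {lam : ℂ}
    (hf : ContDiffOn ℝ 2 f {z : ℂ × ℂ | 0 < height z})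
    (hinv : ∀ g ∈ Gam, ∀ z : ℂ × ℂ, 0 < height z → f (act (mat g) z) = f z)
    (heig : ∀ z : ℂ × ℂ, 0 < height z → laplacian f z = -(lam * f z))
    (hL2 : ∫⁻ z in F, ENNReal.ofReal (Complex.normSq (f z.1)) ∂mu < ∞)
    (hcusp : ∀ u, 0 < u → ∫ s in (0:ℝ)..1, ∫ t in (0:ℝ)..1, ∫ v in (0:ℝ)..2,
      f (Psi s t v u) = 0)
    (hne : ∃ z : ℂ × ℂ, 0 < height z ∧ f z ≠ 0) :
    lam.im = 0 ∧ 231 / 200 ≤ lam.re := by
  obtain ⟨F', hFF', hF'm, hF'e⟩ := hF.nullMeasurableSet.exists_measurable_superset_ae_eq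
  set w : X → ℝ≥0∞ := F'.indicator 1 with hw
  have hwm : Measurable w := measurable_one.indicator hF'm
  have hwc : ∀ᵐ z ∂mu, ∑' γ : arith O star_mem_O, w (γ • z) = (ENat.card proj.ker : ℝ≥0∞) := by
    filter_upwards [weight_sum hF hF'e] with z hz
    have h1 := tsum_fiber (fun p : gpic => w (p • z))
    rw [hz, mul_one] at h1
    rw [← h1]
    rfl
  have := finite_ker
  have hc0 : (ENat.card proj.ker : ℝ≥0∞) ≠ 0 := by
    have : ENat.card proj.ker ≠ 0 := by
      rw [ENat.card_ne_zero_iff_nonempty]; infer_instance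
    exact_mod_cast this
  have hctop : (ENat.card proj.ker : ℝ≥0∞) ≠ ∞ := by
    rw [ENat.card_eq_coe_natCard]
    simp
  have hwint : ∀ φ : X → ℝ≥0∞, ∫⁻ z, w z * φ z ∂mu = ∫⁻ z in F, φ z ∂mu := by
    intro φ
    have e1 : (fun z => w z * φ z) = F'.indicator φ := by
      funext z
      by_cases hz : z ∈ F'
      · simp [hw, hz]
      · simp [hw, hz]
    rw [e1, lintegral_indicator hF'm, setLIntegral_congr hF'e]
  have hgreen := green (O := O) (hO := star_mem_O) finite_ball one_le_norm_O thick_compact hwm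
    hc0 hctop hwc hf (fun γ z hz => hinv γ.1 γ.2 z hz) (lam := lam) heig
    (by rw [hwint]; exact hL2.ne) hne
  rw [hwint, hwint] at hgreen
  refine ⟨hgreen.1, ?_⟩
  -- real and imaginary parts
  set f1 : ℂ × ℂ → ℝ := fun z => (f z).re with hf1
  set f2 : ℂ × ℂ → ℝ := fun z => (f z).im with hf2
  have hf1d : ContDiffOn ℝ 2 f1 {z : ℂ × ℂ | 0 < height z} :=
    Complex.reCLM.contDiff.comp_contDiffOn hf
  have hf2d : ContDiffOn ℝ 2 f2 {z : ℂ × ℂ | 0 < height z} :=
    Complex.imCLM.contDiff.comp_contDiffOn hf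
  have hI1 : InvFun f1 := ⟨hf1d.of_le (by norm_num), fun g hg z hz => by
    simp only [hf1, hinv g hg z hz]⟩
  have hI2 : InvFun f2 := ⟨hf2d.of_le (by norm_num), fun g hg z hz => by
    simp only [hf2, hinv g hg z hz]⟩
  have hc1 : Continuous fun z : X => f1 z.1 := continuous_restrict hI1.smooth.continuousOn
  have hc2 : Continuous fun z : X => f2 z.1 := continuous_restrict hI2.smooth.continuousOn
  have hsplit : ∀ z : X, ENNReal.ofReal (Complex.normSq (f z.1)) =
      ENNReal.ofReal (f1 z.1 ^ 2) + ENNReal.ofReal (f2 z.1 ^ 2) := by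
    intro z
    rw [← ENNReal.ofReal_add (by positivity) (by positivity), Complex.normSq_apply]
    congr 1
    simp only [hf1, hf2]; ring
  have hm1 : Measurable fun z : X => ENNReal.ofReal (f1 z.1 ^ 2) :=
    ENNReal.measurable_ofReal.comp (hc1.pow 2).measurable
  have hA : ∫⁻ z in F, ENNReal.ofReal (Complex.normSq (f z.1)) ∂mu =
      ∫⁻ z in F, ENNReal.ofReal (f1 z.1 ^ 2) ∂mu + ∫⁻ z in F, ENNReal.ofReal (f2 z.1 ^ 2) ∂mu := by
    simp only [hsplit]
    exact lintegral_add_left hm1 _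
  have hcusp1 : ∀ u, 1 < u → ∫ s in (0:ℝ)..1, ∫ t in (0:ℝ)..1, ∫ v in (0:ℝ)..2,
      f1 (Psi s t v u) = 0 := by
    intro u hu
    have := triple_comm Complex.reCLM (G := fun s t v => f (Psi s t v u))
      (cont_fixed hf.continuousOn (lt_trans one_pos hu)) 2
    simp only [Complex.reCLM_apply] at this
    rw [this, hcusp u (lt_trans one_pos hu)]
    rfl
  have hcusp2 : ∀ u, 1 < u → ∫ s in (0:ℝ)..1, ∫ t in (0:ℝ)..1, ∫ v in (0:ℝ)..2,
      f2 (Psi s t v u) = 0 := by
    intro u hu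
    have := triple_comm Complex.imCLM (G := fun s t v => f (Psi s t v u))
      (cont_fixed hf.continuousOn (lt_trans one_pos hu)) 2
    simp only [Complex.imCLM_apply] at this
    rw [this, hcusp u (lt_trans one_pos hu)]
    rfl
  have hL1 : ∫⁻ z in F, ENNReal.ofReal (f1 z.1 ^ 2) ∂mu < ∞ :=
    lt_of_le_of_lt (by rw [hA]; exact le_self_add) hL2
  have hL2' : ∫⁻ z in F, ENNReal.ofReal (f2 z.1 ^ 2) ∂mu < ∞ :=
    lt_of_le_of_lt (by rw [hA]; exact le_add_self) hL2
  have hg1 := gap_real hF hI1 hcusp1 hL1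
  have hg2 := gap_real hF hI2 hcusp2 hL2'
  have hem : Measurable fun z : X => ENNReal.ofReal (energy f1 z.1) :=
    ENNReal.measurable_ofReal.comp (continuous_restrict (φ := fun z => normL z (fderiv ℝ f1 z))
      (continuousOn_normL hI1.smooth)).measurable
  have hE : ∫⁻ z in F, ENNReal.ofReal (energy f1 z.1 + energy f2 z.1) ∂mu =
      ∫⁻ z in F, ENNReal.ofReal (energy f1 z.1) ∂mu +
        ∫⁻ z in F, ENNReal.ofReal (energy f2 z.1) ∂mu := by
    rw [← lintegral_add_left hem]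
    apply lintegral_congr
    intro z
    exact ENNReal.ofReal_add (normL_nonneg z.2.le _) (normL_nonneg z.2.le _)
  have hineq : ENNReal.ofReal (231 / 200) *
      ∫⁻ z in F, ENNReal.ofReal (Complex.normSq (f z.1)) ∂mu ≤
      ENNReal.ofReal lam.re * ∫⁻ z in F, ENNReal.ofReal (Complex.normSq (f z.1)) ∂mu := by
    refine le_trans ?_ hgreen.2
    rw [hE, hA, mul_add]
    exact add_le_add hg1 hg2
  -- positivity of the norm
  have hA0 : ∫⁻ z in F, ENNReal.ofReal (Complex.normSq (f z.1)) ∂mu ≠ 0 := by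
    intro h0
    have h1 := hF.lintegral_eq_tsum'' (fun z : X => ENNReal.ofReal (Complex.normSq (f z.1)))
    have h2 : ∀ p : gpic, ∫⁻ z in F, ENNReal.ofReal (Complex.normSq (f (p • z : X).1)) ∂mu = 0 := by
      intro p
      obtain ⟨g, hg, hgp⟩ := exists_lift p
      rw [← h0]
      apply lintegral_congr
      intro z
      rw [hgp, smul_val, hinv g hg z.1 z.2]
    simp only [h2, tsum_zero] at h1
    have hcn : Continuous fun z : X => Complex.normSq (f z.1) := by
      have : (fun z : X => Complex.normSq (f z.1)) = fun z : X => f1 z.1 ^ 2 + f2 z.1 ^ 2 := by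
        funext z; rw [Complex.normSq_apply]; simp only [hf1, hf2]; ring
      rw [this]
      exact (hc1.pow 2).add (hc2.pow 2)
    have h1' := (lintegral_eq_zero_iff
      (f := fun z : X => ENNReal.ofReal (Complex.normSq (f z.1)))
      (ENNReal.measurable_ofReal.comp hcn.measurable)).mp h1
    have h3 : (fun z : X => Complex.normSq (f z.1)) =ᵐ[mu] fun _ => 0 := by
      filter_upwards [h1'] with z hz
      have h4 : Complex.normSq (f z.1) ≤ 0 := ENNReal.ofReal_eq_zero.mp hz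
      exact le_antisymm h4 (Complex.normSq_nonneg _)
    have h5 : (fun z : X => Complex.normSq (f z.1)) = fun _ => 0 :=
      (Continuous.ae_eq_iff_eq mu hcn continuous_const).mp h3
    obtain ⟨z0, hz0, hfz0⟩ := hne
    have h6 := congrFun h5 (⟨z0, hz0⟩ : X)
    simp only [Complex.normSq_eq_zero] at h6
    exact hfz0 h6
  have h7 : ENNReal.ofReal (231 / 200) ≤ ENNReal.ofReal lam.re :=
    (ENNReal.mul_le_mul_iff_left hA0 hL2.ne).mp hineq
  by_contra hcon
  push Not at hcon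
  have h8 : ENNReal.ofReal lam.re < ENNReal.ofReal (231 / 200) :=
    (ENNReal.ofReal_lt_ofReal_iff (by norm_num)).mpr hcon
  exact absurd h7 (not_le.mpr h8)

end

end Pool.Agent.Lib.H56.Gauss
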