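import Pool.Agent.Lib.H56.Gauss.Unfold
import Pool.Agent.Lib.H56.Picard.FundDom

/-!
# Existence of a measurable fundamental domain, Gaussian integers
-/

namespace Pool.Agent.Lib.H56.Gauss

open Matrix hiding J
open MeasureTheory
open scoped Pointwise ENNReal
open Pool.Agent.Lib.H56.Picard (SU21 mat mat_unitary lift height X mu jf jf_ne_zero act
  smul_val mulVec_lift fixed_null act_smul_one mu_apply)

noncomputable section

/-- The action of the Picard modular group is essentially free. -/
lemma ess_free (p : gpic) (hp : p ≠ 1) : mu {z : X | p • z = z} = 0 := by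
  obtain ⟨g, hg, hgp⟩ := exists_lift p
  have hM : ¬ ∃ ν : ℂ, mat g = ν • (1 : Matrix _ _ ℂ) := by
    rintro ⟨ν, hν⟩
    apply hp
    have hν0 : ν ≠ 0 := by
      rintro rfl
      have : (mat g).det = 1 := g.2.2
      rw [hν] at this
      simp at this
    apply Subtype.ext
    apply Equiv.ext
    intro z
    have := hgp z
    change p • z = z
    rw [this]
    apply Subtype.ext
    rw [smul_val, hν, act_smul_one hν0]
  have hsub : (Subtype.val '' {z : X | p • z = z} : Set (ℂ × ℂ)) ⊆
      {z : ℂ × ℂ | (mat g *ᵥ lift z) 0 = jf (mat g) z * z.1 ∧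
        (mat g *ᵥ lift z) 1 = jf (mat g) z * z.2} := by
    rintro _ ⟨z, hz, rfl⟩
    have hz' : act (mat g) z.1 = z.1 := by
      rw [← smul_val, ← hgp]; exact congrArg Subtype.val hz
    have hj := jf_ne_zero (mat_unitary g) z.2
    have h1 := mulVec_lift hj
    rw [hz'] at h1
    constructor
    · rw [h1]; simp [lift]
    · rw [h1]; simp [lift]
  have hmeas : MeasurableSet {z : X | p • z = z} := by
    have h1 : Measurable fun z : X => (p • z : X) := measurable_const_smul p
    exact measurableSet_eq_fun h1 measurable_id
  rw [mu_apply hmeas]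
  exact setLIntegral_measure_zero _ _ (measure_mono_null hsub (fixed_null _ hM))

/-- A measurable fundamental domain exists. -/
theorem exists_fundamentalDomain : ∃ F : Set X, IsFundamentalDomain gpic F mu := by
  obtain ⟨φ, hφ⟩ := exists_measurableEmbedding_real (ℂ × ℂ)
  set F : Set X := D1 ∩ ⋂ p : gpic, {z : X | p • z ∈ D1 → φ z.1 ≤ φ (p • z : X).1} with hF
  have hFm : MeasurableSet F := by
    apply measurableSet_D1.inter
    apply MeasurableSet.iInter
    intro p
    have h1 : Measurable fun z : X => (p • z : X) := measurable_const_smul p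
    have e : {z : X | p • z ∈ D1 → φ z.1 ≤ φ (p • z : X).1} =
        ((fun z : X => (p • z : X)) ⁻¹' D1)ᶜ ∪ {z : X | φ z.1 ≤ φ (p • z : X).1} := by
      ext z
      simp only [Set.mem_union, Set.mem_compl_iff, Set.mem_preimage]
      exact imp_iff_not_or
    rw [e]
    apply MeasurableSet.union
    · exact (h1 measurableSet_D1).compl
    · exact measurableSet_le (hφ.measurable.comp measurable_subtype_coe)
        (hφ.measurable.comp (measurable_subtype_coe.comp h1))
  refine ⟨F, IsFundamentalDomain.mk'' hFm.nullMeasurableSet ?_ ?_ ?_⟩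
  · filter_upwards [ae_exists_height] with z hz
    have h2 := four_le_NN hz
    have hfin : {p : gpic | (1 : ℝ≥0∞) ≤ D1.indicator (1 : X → ℝ≥0∞) (p • z)}.Finite := by
      apply ENNReal.finite_const_le_of_tsum_ne_top
      · exact ne_top_of_le_ne_top (by norm_num) (NN_le z)
      · exact one_ne_zero
    have hset : {p : gpic | (1 : ℝ≥0∞) ≤ D1.indicator (1 : X → ℝ≥0∞) (p • z)} =
        {p : gpic | p • z ∈ D1} := by
      ext p
      by_cases h : p • z ∈ D1
      · simp [h]
      · simp [h]
    rw [hset] at hfin
    have hne : {p : gpic | p • z ∈ D1}.Nonempty := by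
      by_contra hcon
      rw [Set.not_nonempty_iff_eq_empty] at hcon
      have : NN z = 0 := by
        unfold NN
        have : ∀ p : gpic, D1.indicator (1 : X → ℝ≥0∞) (p • z) = 0 := by
          intro p
          apply Set.indicator_of_notMem
          intro hp
          have : p ∈ {p : gpic | p • z ∈ D1} := hp
          rw [hcon] at this
          exact this
        simp [this]
      rw [this] at h2
      norm_num at h2
    obtain ⟨p0, hp0, hmin⟩ := Set.exists_min_image _ (fun p : gpic => φ (p • z : X).1) hfin hne
    refine ⟨p0, hp0, ?_⟩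
    simp only [Set.mem_iInter]
    intro q hq
    have := hmin (q * p0) (by show (q * p0) • z ∈ D1; rw [mul_smul]; exact hq)
    simp only [mul_smul] at this
    exact this
  · intro g hg
    apply measure_mono_null _ (ess_free g hg)
    rintro z ⟨hz1, hz2⟩
    obtain ⟨y, hy, rfl⟩ := hz1
    show g • (g • y) = g • y
    have h1 : φ y.1 ≤ φ (g • y : X).1 := by
      have := Set.mem_iInter.mp hy.2 g
      exact this hz2.1
    have h2 : φ (g • y : X).1 ≤ φ y.1 := by
      have := Set.mem_iInter.mp hz2.2 g⁻¹
      have h3 : g⁻¹ • g • y = y := inv_smul_smul _ _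
      have h4 := this (by show g⁻¹ • g • y ∈ D1; rw [h3]; exact hy.1)
      simpa [h3] using h4
    have h3 : y.1 = (g • y : X).1 := hφ.injective (le_antisymm h1 h2)
    have h4 : y = g • y := Subtype.ext h3
    rw [← h4]
    exact h4.symm
  · intro g
    exact (measurePreserving_smul g mu).quasiMeasurePreserving

end

end Pool.Agent.Lib.H56.Gauss
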