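import Pool.Agent.Lib.H56.Gauss.Transl
import Pool.Agent.Lib.H56.Picard.Gap
import Pool.Agent.Lib.H56.Gauss.FundDom

/-!
# The spectral gap inequality for real cuspidal functions, Gaussian integers
-/

namespace Pool.Agent.Lib.H56.Gauss

open Matrix hiding J
open MeasureTheory
open scoped Pointwise ENNReal
open Pool.Agent.Lib.H56.Picard (SU21 mat mat_unitary lift height X mu jf act smul_val energy
  normL dv du measurableSet_siegel isOpen_siegel BB continuous_restrict continuousOn_normL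
  energy_act height_act_pos cusp_gaussian)

noncomputable section

lemma lintegral_D1_ofReal (ψ : ℂ × ℂ → ℝ) (hψ : Measurable fun z : X => ψ z.1)  :
    ∫⁻ z in D1, ENNReal.ofReal (ψ z.1) ∂mu =
      ENNReal.ofReal (1 / 2) * BB 2 (fun s t v u => ψ (Psi s t v u)) := by
  set g : X → ℝ≥0∞ := fun z => ENNReal.ofReal (ψ z.1) with hg
  have hgm : Measurable g := ENNReal.measurable_ofReal.comp hψ
  set φ : ℂ × ℂ → ℝ≥0∞ := Function.extend Subtype.val g (fun _ => 0) with hφ
  have hφm : Measurable φ :=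
    (MeasurableEmbedding.subtype_coe measurableSet_siegel).measurable_extend hgm measurable_const
  have hφX : ∀ z : X, φ z.1 = g z := fun z => Subtype.val_injective.extend_apply _ _ _
  have h1 : ∫⁻ z in D1, ENNReal.ofReal (ψ z.1) ∂mu = ∫⁻ z in D1, φ z.1 ∂mu := by
    simp only [hφX, hg]
  rw [h1, lintegral_D1 φ hφm]
  congr 1
  unfold BB
  apply setLIntegral_congr_fun measurableSet_Ioi
  intro u hu
  have hu0 : 0 < u := lt_trans one_pos hu
  simp only
  rw [setLIntegral_congr Ico_ae_eq_Icc]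
  apply lintegral_congr; intro s
  rw [setLIntegral_congr Ico_ae_eq_Icc]
  apply lintegral_congr; intro t
  rw [setLIntegral_congr Ico_ae_eq_Icc]
  apply lintegral_congr; intro v
  have h2 : φ (Psi s t v u) = ENNReal.ofReal (ψ (Psi s t v u)) :=
    hφX ⟨Psi s t v u, by rw [height_Psi]; exact hu0⟩
  rw [h2, ← ENNReal.ofReal_mul (by positivity)]

/-- Real version of the spectral gap. -/
theorem gap_real {F : Set X} (hF : IsFundamentalDomain gpic F mu) {f : ℂ × ℂ → ℝ}
    (hf : InvFun f)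
    (hcusp : ∀ u, 1 < u → ∫ s in (0:ℝ)..1, ∫ t in (0:ℝ)..1, ∫ v in (0:ℝ)..2,
      f (Psi s t v u) = 0)
    (hL2 : ∫⁻ z in F, ENNReal.ofReal (f z.1 ^ 2) ∂mu < ∞) :
    ENNReal.ofReal (231 / 200) * ∫⁻ z in F, ENNReal.ofReal (f z.1 ^ 2) ∂mu ≤
      ∫⁻ z in F, ENNReal.ofReal (energy f z.1) ∂mu := by
  have hfc : Continuous fun z : X => f z.1 := continuous_restrict hf.smooth.continuousOn
  have hf2m : Measurable fun z : X => f z.1 ^ 2 := (hfc.pow 2).measurable
  have hem : Measurable fun z : X => energy f z.1 :=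
    (continuous_restrict (φ := fun z => normL z (fderiv ℝ f z))
      (continuousOn_normL hf.smooth)).measurable
  have hinv1 : ∀ (p : gpic) (z : X), ENNReal.ofReal (f (p • z : X).1 ^ 2) =
      ENNReal.ofReal (f z.1 ^ 2) := by
    intro p z
    obtain ⟨g, hg, hgp⟩ := exists_lift p
    rw [hgp, smul_val, hf.inv g hg z.1 z.2]
  have hinv2 : ∀ (p : gpic) (z : X), ENNReal.ofReal (energy f (p • z : X).1) =
      ENNReal.ofReal (energy f z.1) := by
    intro p z
    obtain ⟨g, hg, hgp⟩ := exists_lift p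
    rw [hgp, smul_val, energy_act g z.2]
    · exact hf.differentiableAt (height_act_pos (mat_unitary g) z.2)
    · filter_upwards [isOpen_siegel.mem_nhds z.2] with w hw
      exact hf.inv g hg w hw
  have hA1 := D1_le hF (φ := fun z : X => ENNReal.ofReal (f z.1 ^ 2))
    (ENNReal.measurable_ofReal.comp hf2m) hinv1
  have hA2 := le_D1 hF (φ := fun z : X => ENNReal.ofReal (f z.1 ^ 2))
    (ENNReal.measurable_ofReal.comp hf2m) hinv1
  have hE1 := D1_le hF (φ := fun z : X => ENNReal.ofReal (energy f z.1))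
    (ENNReal.measurable_ofReal.comp hem) hinv2
  have hfin : ∫⁻ z in D1, ENNReal.ofReal (f z.1 ^ 2) ∂mu < ∞ :=
    lt_of_le_of_lt hA1 (ENNReal.mul_lt_top (by norm_num) hL2)
  have hc0 : ENNReal.ofReal (1 / 2) ≠ 0 := by
    rw [ne_eq, ENNReal.ofReal_eq_zero]; push Not; norm_num
  have hd1 := lintegral_D1_ofReal (fun z => f z ^ 2) hf2m
  have hd2 := lintegral_D1_ofReal (fun z => energy f z) hem
  have hBB : BB 2 (fun s t v u => f (Psi s t v u) ^ 2) < ∞ := by
    rw [hd1] at hfin
    by_contra hcon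
    push Not at hcon
    rw [top_le_iff] at hcon
    rw [hcon, ENNReal.mul_top hc0] at hfin
    exact absurd hfin (lt_irrefl _)
  have hmain := cusp_gaussian (a := 4) (α := fun t => -(4 * t)) (γ := fun s => 4 * s)
    (F := fun s t v u => f (Psi s t v u))
    (Fs := fun s t v u => fderiv ℝ f (Psi s t v u) (ds s))
    (Ft := fun s t v u => fderiv ℝ f (Psi s t v u) (dt t))
    (Fv := fun s t v u => fderiv ℝ f (Psi s t v u) dv)
    (Fu := fun s t v u => fderiv ℝ f (Psi s t v u) du)
    (fun s t v u hu => hf.hasDerivAt (hasDerivAt_Psi_s s t v u) (by rw [height_Psi]; exact hu))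
    (fun s t v u hu => hf.hasDerivAt (hasDerivAt_Psi_t s t v u) (by rw [height_Psi]; exact hu))
    (fun s t v u hu => hf.hasDerivAt (hasDerivAt_Psi_v s t v u) (by rw [height_Psi]; exact hu))
    (fun s t v u hu => hf.hasDerivAt (hasDerivAt_Psi_u s t v u) (by rw [height_Psi]; exact hu))
    hf.cont
    (hf.cont_dir (d := fun p => ds p.1) (by
      have : (fun p : ℝ × ℝ × ℝ × ℝ => ds p.1) = fun p =>
          (((-(2 * p.1) : ℝ) : ℂ), (⟨1, 1⟩ : ℂ)) := by
        funext p
        refine Prod.ext (Complex.ext ?_ ?_) rfl <;> simp [ds]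
      rw [this]; fun_prop))
    (hf.cont_dir (d := fun p => dt p.2.1) (by
      have : (fun p : ℝ × ℝ × ℝ × ℝ => dt p.2.1) = fun p =>
          (((-(2 * p.2.1) : ℝ) : ℂ), (⟨-1, 1⟩ : ℂ)) := by
        funext p
        refine Prod.ext (Complex.ext ?_ ?_) rfl <;> simp [dt]
      rw [this]; fun_prop))
    (hf.cont_dir (d := fun p => dv) continuous_const)
    (hf.cont_dir (d := fun p => du) continuous_const)
    (fun s t v u hu => hf.per_v s t v u hu)
    (fun s t v u hu => hf.per_s s t v u hu)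
    (fun s t v u hu => hf.per_t s t v u hu)
    hcusp hBB
  have hmain' : ENNReal.ofReal (693 / 100) * BB 2 (fun s t v u => f (Psi s t v u) ^ 2) ≤
      BB 2 (fun s t v u => energy f (Psi s t v u)) := by
    refine hmain.trans (le_of_eq ?_)
    congr 1
    funext s t v u
    exact (energy_Psi f s t v u).symm
  -- combine
  have hD : ENNReal.ofReal (693 / 100) * ∫⁻ z in D1, ENNReal.ofReal (f z.1 ^ 2) ∂mu ≤
      ∫⁻ z in D1, ENNReal.ofReal (energy f z.1) ∂mu := by
    rw [hd1, hd2, mul_left_comm]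
    exact mul_le_mul' le_rfl hmain'
  have hfinal : 24 * (ENNReal.ofReal (231 / 200) * ∫⁻ z in F, ENNReal.ofReal (f z.1 ^ 2) ∂mu) ≤
      24 * ∫⁻ z in F, ENNReal.ofReal (energy f z.1) ∂mu := by
    calc 24 * (ENNReal.ofReal (231 / 200) * ∫⁻ z in F, ENNReal.ofReal (f z.1 ^ 2) ∂mu)
        = ENNReal.ofReal (693 / 100) * (4 * ∫⁻ z in F, ENNReal.ofReal (f z.1 ^ 2) ∂mu) := by
          rw [← mul_assoc, ← mul_assoc]
          congr 1
          have e12 : (24 : ℝ≥0∞) = ENNReal.ofReal 24 := by norm_num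
          have e2 : (4 : ℝ≥0∞) = ENNReal.ofReal 4 := by norm_num
          rw [e12, e2, ← ENNReal.ofReal_mul (by norm_num), ← ENNReal.ofReal_mul (by norm_num)]
          norm_num
      _ ≤ ENNReal.ofReal (693 / 100) * ∫⁻ z in D1, ENNReal.ofReal (f z.1 ^ 2) ∂mu :=
          mul_le_mul' le_rfl hA2
      _ ≤ ∫⁻ z in D1, ENNReal.ofReal (energy f z.1) ∂mu := hD
      _ ≤ _ := hE1
  exact (ENNReal.mul_le_mul_iff_right (by norm_num) (by norm_num)).mp hfinal

end

end Pool.Agent.Lib.H56.Gauss
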