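import Pool.Agent.Lib.H56.Gauss.Ring
import Pool.Agent.Lib.H56.Picard.Heis

/-!
# Heisenberg translations and the stabiliser of the cusp, Gaussian case
-/

namespace Pool.Agent.Lib.H56.Gauss

open Matrix hiding J
open MeasureTheory
open Pool.Agent.Lib.H56.Picard (SU21 mat mat_mul mat_one mat_unitary mat_inv mkSU mat_mkSU TM TM_unitary
  T mat_T act_TM inv0 jf_inv0 row_null unitary_right jf jf_apply act lift J height X mulVec_lift_apply
  jf_ne_zero arith)

noncomputable section

lemma T_mem {l w : ℂ} (h : 2 * w.re = -Complex.normSq l) (hl : l ∈ O) (hw : w ∈ O) :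
    T l w h ∈ Gam := by
  rw [mem_Gam]
  intro i j
  rw [mat_T]
  fin_cases i <;> fin_cases j <;> simp only [TM]
  · exact O.one_mem
  · exact O.neg_mem (star_mem_O l hl)
  · exact hw
  · exact O.zero_mem
  · exact O.one_mem
  · exact hl
  · exact O.zero_mem
  · exact O.zero_mem
  · exact O.one_mem

lemma I_mem : Complex.I ∈ O := ⟨0, 1, by apply Complex.ext <;> simp [gi]⟩

/-- the rotation `ζ ↦ iζ` -/
def rot : SU21 := mkSU !![Complex.I, 0, 0; 0, -1, 0; 0, 0, Complex.I]
  (by ext i j; fin_cases i <;> fin_cases j <;> simp [J, Matrix.mul_apply, Fin.sum_univ_three])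
  (by simp [Matrix.det_fin_three])

lemma rot_mem : rot ∈ Gam := by
  rw [mem_Gam]
  intro i j
  fin_cases i <;> fin_cases j <;>
    simp [rot, mat_mkSU, O.zero_mem, O.neg_mem O.one_mem, I_mem]

lemma act_rot (z : ℂ × ℂ) : act (mat rot) z = (z.1, Complex.I * z.2) := by
  have hI : Complex.I ≠ 0 := Complex.I_ne_zero
  simp only [act, jf, lift, rot, mat_mkSU, Matrix.mulVec, dotProduct, Fin.sum_univ_three]
  simp [mul_comm]

lemma inv0_mem : inv0 ∈ Gam := by
  rw [mem_Gam]
  intro i j
  fin_cases i <;> fin_cases j <;> simp [inv0, mat_mkSU, O.one_mem, O.zero_mem, O.neg_mem O.one_mem]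

/-- Elements with third row `(0, 0, ν)`: shape. -/
lemma upper (g : SU21) (hg : g ∈ Gam) (h0 : mat g 2 0 = 0) :
    mat g 2 1 = 0 ∧ mat g 1 0 = 0 ∧ Complex.normSq (mat g 2 2) = 1 ∧ mat g 0 0 = mat g 2 2 := by
  have hn := row_null g
  rw [h0] at hn
  simp only [zero_mul, zero_add, star_zero, mul_zero, add_zero] at hn
  have h1 : mat g 2 1 = 0 := by
    have : Complex.normSq (mat g 2 1) = 0 := by
      have h2 : ((Complex.normSq (mat g 2 1) : ℝ) : ℂ) = 0 := by
        rw [Complex.normSq_eq_conj_mul_self, ← Complex.star_def]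
        linear_combination hn
      exact_mod_cast h2
    exact Complex.normSq_eq_zero.mp this
  have hu := mat_unitary g
  have e00 := congrFun (congrFun hu 0) 0
  have e02 := congrFun (congrFun hu 0) 2
  simp [J, Matrix.mul_apply, Fin.sum_univ_three, h0] at e00 e02
  have h2 : mat g 1 0 = 0 := e00
  rw [h2] at e02
  simp only [map_zero, zero_mul, zero_add] at e02
  have hne0 : mat g 0 0 ≠ 0 := by
    intro h; rw [h] at e02; simp at e02
  have hne2 : mat g 2 2 ≠ 0 := by
    intro h; rw [h] at e02; simp at e02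
  have n0 := one_le_normSq (hg 0 0) hne0
  have n2 := one_le_normSq (hg 2 2) hne2
  have hmul : Complex.normSq (mat g 0 0) * Complex.normSq (mat g 2 2) = 1 := by
    have := congrArg Complex.normSq e02
    rwa [map_mul, Complex.normSq_conj, map_one] at this
  have hn2 : Complex.normSq (mat g 2 2) = 1 := by nlinarith
  refine ⟨h1, h2, hn2, ?_⟩
  have h3 : (starRingEnd ℂ) (mat g 2 2) * mat g 2 2 = 1 := by
    rw [← Complex.normSq_eq_conj_mul_self, hn2]; simp
  have h4 : (starRingEnd ℂ) (mat g 0 0) = (starRingEnd ℂ) (mat g 2 2) := by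
    have : ((starRingEnd ℂ) (mat g 0 0) - (starRingEnd ℂ) (mat g 2 2)) * mat g 2 2 = 0 := by
      linear_combination e02 - h3
    rcases mul_eq_zero.mp this with h | h
    · linear_combination h
    · exact absurd h hne2
  exact (starRingEnd ℂ).injective h4

/-- Elements with third row `(0, 0, 1)` act as Heisenberg translations. -/
lemma unipotent (g : SU21) (hg : g ∈ Gam) (h0 : mat g 2 0 = 0) (hν : mat g 2 2 = 1) :
    ∃ l ∈ O, ∃ w ∈ O, 2 * w.re = -Complex.normSq l ∧
      ∀ z : ℂ × ℂ, act (mat g) z = (z.1 - star l * z.2 + w, z.2 + l) := by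
  obtain ⟨h1, h10, hn2, h00⟩ := upper g hg h0
  rw [hν] at h00
  have hu := mat_unitary g
  have e12 := congrFun (congrFun hu 1) 2
  have e22 := congrFun (congrFun hu 2) 2
  simp [J, Matrix.mul_apply, Fin.sum_univ_three, h1, hν] at e12 e22
  have hdet' : (mat g).det = 1 := g.2.2
  rw [Matrix.det_fin_three, h0, h1, h10, h00, hν] at hdet'
  have h11 : mat g 1 1 = 1 := by linear_combination hdet'
  refine ⟨mat g 1 2, hg 1 2, mat g 0 2, hg 0 2, ?_, ?_⟩
  · have h5 := congrArg Complex.re e22
    rw [Complex.normSq_apply]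
    simp at h5 ⊢
    nlinarith [h5]
  · intro z
    have hj : jf (mat g) z = 1 := by rw [jf_apply, h0, h1, hν]; simp
    have h01 : mat g 0 1 = -(star (mat g 1 2)) := by
      rw [h11] at e12
      have h6 := congrArg (starRingEnd ℂ) e12
      simp only [map_add, map_mul, Complex.conj_conj, map_zero, map_one] at h6
      simp only [Complex.star_def]
      linear_combination h6
    unfold act
    rw [hj, mulVec_lift_apply, mulVec_lift_apply, h01, h11, h10, h00]
    ext1
    · simp only [div_one]
      ring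
    · simp only [div_one]
      ring

/-- the deep elements, `c = 1 + i`, third entry `-1` -/
def dp (e : ℂ) (he : Complex.normSq e = 1) : SU21 :=
  mkSU !![-1, 0, 0; (1 - Complex.I) * e, 1, 0; 1 + Complex.I, (1 + Complex.I) * star e, -1]
  (by
    have h1 : star e * e = 1 := by
      rw [Complex.star_def, ← Complex.normSq_eq_conj_mul_self, he]; simp
    have h2 := Complex.I_mul_I
    simp only [Complex.star_def] at h1
    ext i j
    fin_cases i <;> fin_cases j <;> simp [J, Matrix.mul_apply, Fin.sum_univ_three] <;>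
      first
      | linear_combination (1 - Complex.I * Complex.I) * h1 - h2
      | ring_nf)
  (by simp [Matrix.det_fin_three])

/-- the deep elements, `c = 1 + i`, third entry `-i` -/
def dm (e : ℂ) (he : Complex.normSq e = 1) : SU21 :=
  mkSU !![-Complex.I, 0, 0; -((1 + Complex.I) * e), -1, 0;
    1 + Complex.I, (1 + Complex.I) * star e, -Complex.I]
  (by
    have h1 : star e * e = 1 := by
      rw [Complex.star_def, ← Complex.normSq_eq_conj_mul_self, he]; simp
    have h2 := Complex.I_mul_I
    simp only [Complex.star_def] at h1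
    ext i j
    fin_cases i <;> fin_cases j <;> simp [J, Matrix.mul_apply, Fin.sum_univ_three] <;>
      first
      | linear_combination (1 - Complex.I * Complex.I) * h1 + h2
      | linear_combination ((starRingEnd ℂ) e) * h2
      | linear_combination e * h2)
  (by simp [Matrix.det_fin_three])

lemma one_add_I : (1 : ℂ) + Complex.I = pp := by apply Complex.ext <;> simp [pp, gi]

lemma one_sub_I : (1 : ℂ) - Complex.I = gi 1 (-1) := by apply Complex.ext <;> simp [gi]

lemma dp_mem {e : ℂ} (he : Complex.normSq e = 1) (hm : e ∈ O) : dp e he ∈ Gam := by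
  rw [mem_Gam]
  intro i j
  have h1 : (1 : ℂ) + Complex.I ∈ O := by rw [one_add_I]; exact pp_mem
  have h2 : (1 : ℂ) - Complex.I ∈ O := by rw [one_sub_I]; exact gi_mem _ _
  have h3 := O.mul_mem h1 (star_mem_O e hm)
  have h4 := O.mul_mem h2 hm
  rw [dp, mat_mkSU]
  fin_cases i <;> fin_cases j
  · exact O.neg_mem O.one_mem
  · exact O.zero_mem
  · exact O.zero_mem
  · exact h4
  · exact O.one_mem
  · exact O.zero_mem
  · exact h1
  · exact h3
  · exact O.neg_mem O.one_mem

lemma dm_mem {e : ℂ} (he : Complex.normSq e = 1) (hm : e ∈ O) : dm e he ∈ Gam := by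
  rw [mem_Gam]
  intro i j
  have h1 : (1 : ℂ) + Complex.I ∈ O := by rw [one_add_I]; exact pp_mem
  have h3 := O.mul_mem h1 (star_mem_O e hm)
  have h4 := O.neg_mem (O.mul_mem h1 hm)
  rw [dm, mat_mkSU]
  fin_cases i <;> fin_cases j
  · exact O.neg_mem I_mem
  · exact O.zero_mem
  · exact O.zero_mem
  · exact h4
  · exact O.neg_mem O.one_mem
  · exact O.zero_mem
  · exact h1
  · exact h3
  · exact O.neg_mem I_mem

/-- The factor of automorphy of the deep elements. -/
lemma normSq_jf_dp {e : ℂ} (he : Complex.normSq e = 1) (z : ℂ × ℂ) :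
    Complex.normSq (jf (mat (dp e he)) z) =
      ((height z + Complex.normSq (z.2 - e)) ^ 2 +
        (2 * (z.1 + star e * z.2).im + 1) ^ 2) / 2 := by
  have h1 : jf (mat (dp e he)) z = (1 + Complex.I) * (z.1 + star e * z.2) - 1 := by
    rw [jf_apply, dp, mat_mkSU]
    simp
    ring
  rw [h1]
  rw [Complex.normSq_apply] at he
  have h2 : height z + Complex.normSq (z.2 - e) = -(2 * (z.1 + star e * z.2).re) + 1 := by
    simp [height, Complex.normSq_apply]
    linarith
  rw [h2, Complex.normSq_apply]
  simp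
  ring

lemma normSq_jf_dm {e : ℂ} (he : Complex.normSq e = 1) (z : ℂ × ℂ) :
    Complex.normSq (jf (mat (dm e he)) z) =
      ((height z + Complex.normSq (z.2 - e)) ^ 2 +
        (2 * (z.1 + star e * z.2).im - 1) ^ 2) / 2 := by
  have h1 : jf (mat (dm e he)) z = (1 + Complex.I) * (z.1 + star e * z.2) - Complex.I := by
    rw [jf_apply, dm, mat_mkSU]
    simp
    ring
  rw [h1]
  rw [Complex.normSq_apply] at he
  have h2 : height z + Complex.normSq (z.2 - e) = -(2 * (z.1 + star e * z.2).re) + 1 := by
    simp [height, Complex.normSq_apply]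
    linarith
  rw [h2, Complex.normSq_apply]
  simp
  ring

end

end Pool.Agent.Lib.H56.Gauss
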