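import Pool.Agent.Lib.H56.Picard.Measure

/-!
# The Gaussian integers as a subring of `ℂ`
-/

namespace Pool.Agent.Lib.H56.Gauss

open Matrix MeasureTheory Pool.Agent.Lib.H56.Picard

noncomputable section

/-- The element `a + bi`. -/
def gi (a b : ℤ) : ℂ := ⟨a, b⟩

lemma gi_re (a b : ℤ) : (gi a b).re = a := rfl

lemma gi_im (a b : ℤ) : (gi a b).im = b := rfl

lemma gi_zero : gi 0 0 = 0 := by apply Complex.ext <;> simp [gi]

lemma gi_one : gi 1 0 = 1 := by apply Complex.ext <;> simp [gi]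

lemma gi_add (a b c d : ℤ) : gi a b + gi c d = gi (a + c) (b + d) := by
  apply Complex.ext <;> simp [gi]

lemma gi_neg (a b : ℤ) : -gi a b = gi (-a) (-b) := by
  apply Complex.ext <;> simp [gi]

lemma gi_sub (a b c d : ℤ) : gi a b - gi c d = gi (a - c) (b - d) := by
  apply Complex.ext <;> simp [gi]

lemma gi_mul (a b c d : ℤ) : gi a b * gi c d = gi (a * c - b * d) (a * d + b * c) := by
  apply Complex.ext <;> simp [gi]

lemma star_gi (a b : ℤ) : star (gi a b) = gi a (-b) := by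
  apply Complex.ext <;> simp [gi]

lemma normSq_gi (a b : ℤ) : Complex.normSq (gi a b) = ((a ^ 2 + b ^ 2 : ℤ) : ℝ) := by
  rw [Complex.normSq_apply, gi_re, gi_im]
  push_cast
  ring

lemma gi_inj {a b c d : ℤ} : gi a b = gi c d ↔ a = c ∧ b = d := by
  constructor
  · intro h
    have h1 := congrArg Complex.im h
    have h2 := congrArg Complex.re h
    rw [gi_im, gi_im] at h1
    rw [gi_re, gi_re] at h2
    exact ⟨by exact_mod_cast h2, by exact_mod_cast h1⟩
  · rintro ⟨rfl, rfl⟩; rfl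

/-- The ring of Gaussian integers `ℤ[i]`. -/
def O : Subring ℂ where
  carrier := {x | ∃ a b : ℤ, x = gi a b}
  mul_mem' := by
    rintro _ _ ⟨a, b, rfl⟩ ⟨c, d, rfl⟩
    exact ⟨_, _, gi_mul a b c d⟩
  one_mem' := ⟨1, 0, gi_one.symm⟩
  add_mem' := by
    rintro _ _ ⟨a, b, rfl⟩ ⟨c, d, rfl⟩
    exact ⟨_, _, gi_add a b c d⟩
  zero_mem' := ⟨0, 0, gi_zero.symm⟩
  neg_mem' := by
    rintro _ ⟨a, b, rfl⟩
    exact ⟨_, _, gi_neg a b⟩

lemma mem_O {x : ℂ} : x ∈ O ↔ ∃ a b : ℤ, x = gi a b := Iff.rfl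

lemma gi_mem (a b : ℤ) : gi a b ∈ O := ⟨a, b, rfl⟩

lemma star_mem_O : ∀ x ∈ O, star x ∈ O := by
  rintro _ ⟨a, b, rfl⟩
  exact ⟨_, _, star_gi a b⟩

lemma normSq_mem_O {x : ℂ} (hx : x ∈ O) : ∃ n : ℤ, 0 ≤ n ∧ Complex.normSq x = n := by
  obtain ⟨a, b, rfl⟩ := hx
  exact ⟨a ^ 2 + b ^ 2, by positivity, normSq_gi a b⟩

/-- The Picard modular group `SU(2,1;ℤ[i])`. -/
def Gam : Subgroup SU21 := arith O star_mem_O

lemma mem_Gam {g : SU21} : g ∈ Gam ↔ ∀ i j, mat g i j ∈ O := Iff.rfl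

/-- nonzero elements have norm at least one -/
lemma one_le_normSq {x : ℂ} (hx : x ∈ O) (h0 : x ≠ 0) : 1 ≤ Complex.normSq x := by
  obtain ⟨n, hn, h⟩ := normSq_mem_O hx
  rw [h]
  have : n ≠ 0 := by
    rintro rfl
    apply h0
    rw [← Complex.normSq_eq_zero, h]; simp
  exact_mod_cast (show 1 ≤ n by omega)

/-- elements of norm `< 4` have norm `0`, `1` or `2`. -/
lemma normSq_lt_four {x : ℂ} (hx : x ∈ O) (h0 : x ≠ 0) (h4 : Complex.normSq x < 4) :
    Complex.normSq x = 1 ∨ Complex.normSq x = 2 := by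
  obtain ⟨a, b, rfl⟩ := hx
  rw [normSq_gi] at h4 ⊢
  have h4' : a ^ 2 + b ^ 2 < 4 := by exact_mod_cast h4
  have h5 : a ^ 2 + b ^ 2 ≠ 0 := by
    intro h
    apply h0
    rw [← Complex.normSq_eq_zero, normSq_gi, h]; simp
  have ha : a ≤ 1 := by nlinarith [sq_nonneg b]
  have ha' : -1 ≤ a := by nlinarith [sq_nonneg b]
  have hb : b ≤ 1 := by nlinarith [sq_nonneg a]
  have hb' : -1 ≤ b := by nlinarith [sq_nonneg a]
  have key : a ^ 2 + b ^ 2 = 1 ∨ a ^ 2 + b ^ 2 = 2 := by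
    interval_cases a <;> interval_cases b <;> simp_all
  rcases key with h | h
  · left; rw [h]; simp
  · right; rw [h]; simp

/-- The units. -/
lemma unit_cases {x : ℂ} (hx : x ∈ O) (h1 : Complex.normSq x = 1) :
    x = 1 ∨ x = -1 ∨ x = Complex.I ∨ x = -Complex.I := by
  obtain ⟨a, b, rfl⟩ := hx
  rw [normSq_gi] at h1
  have h1' : a ^ 2 + b ^ 2 = 1 := by exact_mod_cast h1
  have ha : a ≤ 1 := by nlinarith [sq_nonneg b]
  have ha' : -1 ≤ a := by nlinarith [sq_nonneg b]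
  have hb : b ≤ 1 := by nlinarith [sq_nonneg a]
  have hb' : -1 ≤ b := by nlinarith [sq_nonneg a]
  have f1 : (1 : ℂ) = gi 1 0 := gi_one.symm
  have f2 : (-1 : ℂ) = gi (-1) 0 := by apply Complex.ext <;> simp [gi]
  have f3 : Complex.I = gi 0 1 := by apply Complex.ext <;> simp [gi]
  have f4 : -Complex.I = gi 0 (-1) := by apply Complex.ext <;> simp [gi]
  rw [f4, f3, f2, f1, gi_inj, gi_inj, gi_inj, gi_inj]
  interval_cases a <;> interval_cases b <;> simp_all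

/-- `1 + i` -/
def pp : ℂ := gi 1 1

lemma pp_mem : pp ∈ O := gi_mem 1 1

lemma normSq_pp : Complex.normSq pp = 2 := by rw [pp, normSq_gi]; norm_num

lemma pp_ne_zero : pp ≠ 0 := by
  intro h
  have := congrArg Complex.normSq h
  rw [normSq_pp] at this
  simp at this

/-- elements of even norm are divisible by `1 + i` -/
lemma pp_dvd {x : ℂ} (hx : x ∈ O) {n : ℤ} (hn : Complex.normSq x = 2 * n) :
    ∃ y ∈ O, x = pp * y := by
  obtain ⟨a, b, rfl⟩ := hx
  rw [normSq_gi] at hn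
  have hn' : a ^ 2 + b ^ 2 = 2 * n := by exact_mod_cast hn
  have h2 : (2 : ℤ) ∣ (a + b) ^ 2 := ⟨n + a * b, by linear_combination hn'⟩
  have h3 : (2 : ℤ) ∣ a + b := Int.prime_two.dvd_of_dvd_pow h2
  obtain ⟨k, hk⟩ := h3
  refine ⟨gi k (k - a), gi_mem _ _, ?_⟩
  rw [pp, gi_mul, gi_inj]
  constructor <;> linarith

/-- inverse of unit -/
lemma unit_inv {e : ℂ} (he : e ∈ O) (h1 : Complex.normSq e = 1) : e ≠ 0 ∧ e⁻¹ ∈ O := by
  have hne : e ≠ 0 := by intro h; rw [h] at h1; simp at h1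
  refine ⟨hne, ?_⟩
  have : e⁻¹ = star e := by
    rw [Complex.star_def, Complex.inv_def, h1]; simp
  rw [this]
  exact star_mem_O e he

/-- elements of norm `2` are units times `1 + i`. -/
lemma normSq_two {x : ℂ} (hx : x ∈ O) (h2 : Complex.normSq x = 2) :
    ∃ e ∈ O, Complex.normSq e = 1 ∧ x = e * pp := by
  obtain ⟨y, hy, rfl⟩ := pp_dvd hx (n := 1) (by rw [h2]; norm_num)
  rw [map_mul, normSq_pp] at h2
  exact ⟨y, hy, by linarith, mul_comm _ _⟩

/-- Two elements of the same parity type at distance `< √2` are equal. -/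
lemma eq_of_dist_lt_two {a b c d : ℤ} (h1 : (a + b - c - d) % 2 = 0)
    (h : Complex.normSq (gi a b - gi c d) < 2) : gi a b = gi c d := by
  rw [gi_sub, normSq_gi] at h
  have h' : (a - c) ^ 2 + (b - d) ^ 2 < 2 := by exact_mod_cast h
  have h2 : a - c ≤ 1 := by nlinarith [sq_nonneg (b - d)]
  have h3 : -1 ≤ a - c := by nlinarith [sq_nonneg (b - d)]
  have h4 : b - d ≤ 1 := by nlinarith [sq_nonneg (a - c)]
  have h5 : -1 ≤ b - d := by nlinarith [sq_nonneg (a - c)]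
  rw [gi_inj]
  obtain ⟨p, hp⟩ : ∃ p, a - c = p := ⟨_, rfl⟩
  obtain ⟨q, hq⟩ : ∃ q, b - d = q := ⟨_, rfl⟩
  rw [hp] at h' h2 h3
  rw [hq] at h' h4 h5
  have h6 : (p + q) % 2 = 0 := by rw [← hp, ← hq]; rw [← h1]; congr 1; ring
  have h7 : p = 0 ∧ q = 0 := by
    interval_cases p <;> interval_cases q <;> simp_all
  constructor <;> omega

/-- Two elements congruent mod `2` at distance `< 2` are equal. -/
lemma eq_of_cong_two {a b c d : ℤ} (h1 : (a - c) % 2 = 0) (h2 : (b - d) % 2 = 0)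
    (h : Complex.normSq (gi a b - gi c d) < 4) : gi a b = gi c d := by
  rw [gi_sub, normSq_gi] at h
  have h' : (a - c) ^ 2 + (b - d) ^ 2 < 4 := by exact_mod_cast h
  obtain ⟨p, hp⟩ : ∃ p, a - c = 2 * p := ⟨(a - c) / 2, by omega⟩
  obtain ⟨q, hq⟩ : ∃ q, b - d = 2 * q := ⟨(b - d) / 2, by omega⟩
  rw [hp, hq] at h'
  have h5 : p = 0 := by nlinarith [sq_nonneg q, sq_nonneg p]
  have h6 : q = 0 := by nlinarith [sq_nonneg p, sq_nonneg q]
  rw [gi_inj]
  subst h5 h6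
  omega

/-- Covering of the plane by the square cells of the lattice `(1 + i)ℤ[i]`. -/
lemma exists_near (z : ℂ) : ∃ x ∈ O, ∃ n : ℤ, Complex.normSq x = 2 * n ∧
    |(z - x).re| + |(z - x).im| ≤ 1 := by
  -- coordinates p = re + im, q = im - re
  set a : ℤ := round ((z.re + z.im) / 2) with ha
  set b : ℤ := round ((z.im - z.re) / 2) with hb
  have h1 := abs_sub_round ((z.re + z.im) / 2)
  have h2 := abs_sub_round ((z.im - z.re) / 2)
  rw [← ha] at h1
  rw [← hb] at h2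
  refine ⟨gi (a - b) (a + b), gi_mem _ _, a ^ 2 + b ^ 2, ?_, ?_⟩
  · rw [normSq_gi]; push_cast; ring
  · rw [Complex.sub_re, Complex.sub_im, gi_re, gi_im]
    push_cast
    rw [abs_le] at h1 h2
    have e : ∀ p q : ℝ, |p + q| ≤ 1 → |p - q| ≤ 1 → |p| + |q| ≤ 1 := by
      intro p q h3 h4
      rw [abs_le] at h3 h4
      rcases abs_cases p with ⟨hp, -⟩ | ⟨hp, -⟩ <;> rcases abs_cases q with ⟨hq, -⟩ | ⟨hq, -⟩ <;>
        rw [hp, hq] <;> linarith
    apply e
    · rw [abs_le]; constructor <;> linarith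
    · rw [abs_le]; constructor <;> linarith

end

end Pool.Agent.Lib.H56.Gauss
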