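import Pool.Agent.Lib.H56.Gauss.Final

/-!
# Square integrability on a Siegel set, Gaussian integers
-/

namespace Pool.Agent.Lib.H56.Gauss

open Matrix hiding J
open MeasureTheory
open scoped Pointwise ENNReal
open Pool.Agent.Lib.H56.Picard (SU21 mat mat_unitary lift height X mu jf act smul_val BB)

noncomputable section

/-- Square integrability on the Siegel set implies square integrability on a fundamental
domain. -/
lemma L2_of_siegel {F : Set X} (hF : IsFundamentalDomain gpic F mu) {f : ℂ × ℂ → ℂ}
    (hf : ContinuousOn f {z : ℂ × ℂ | 0 < height z})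
    (hinv : ∀ g ∈ Gam, ∀ z : ℂ × ℂ, 0 < height z → f (act (mat g) z) = f z)
    (hL2 : BB 2 (fun s t v u => Complex.normSq (f (Psi s t v u))) < ∞) :
    ∫⁻ z in F, ENNReal.ofReal (Complex.normSq (f z.1)) ∂mu < ∞ := by
  have hc : Continuous fun z : X => Complex.normSq (f z.1) :=
    Complex.continuous_normSq.comp (continuousOn_iff_continuous_domRestrict.mp hf)
  have hinv1 : ∀ (p : gpic) (z : X), ENNReal.ofReal (Complex.normSq (f (p • z : X).1)) =
      ENNReal.ofReal (Complex.normSq (f z.1)) := by
    intro p z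
    obtain ⟨g, hg, hgp⟩ := exists_lift p
    rw [hgp, smul_val, hinv g hg z.1 z.2]
  have h1 := le_D1 hF (φ := fun z : X => ENNReal.ofReal (Complex.normSq (f z.1)))
    (ENNReal.measurable_ofReal.comp hc.measurable) hinv1
  rw [lintegral_D1_ofReal (fun z => Complex.normSq (f z)) hc.measurable] at h1
  have h2 : 4 * ∫⁻ z in F, ENNReal.ofReal (Complex.normSq (f z.1)) ∂mu < ∞ :=
    lt_of_le_of_lt h1 (ENNReal.mul_lt_top ENNReal.ofReal_lt_top hL2)
  by_contra hcon
  push Not at hcon
  rw [top_le_iff] at hcon
  rw [hcon, ENNReal.mul_top (by norm_num)] at h2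
  exact absurd h2 (lt_irrefl _)

end

end Pool.Agent.Lib.H56.Gauss
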