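import Pool.Agent.Lib.H56.Gauss.Count
import Pool.Agent.Lib.H56.Picard.Unfold

/-!
# The Picard modular group over the Gaussian integers as a group of transformations; unfolding
-/

namespace Pool.Agent.Lib.H56.Gauss

open Matrix hiding J
open MeasureTheory
open scoped Pointwise ENNReal
open Pool.Agent.Lib.H56.Picard (SU21 mat mat_mul mat_one mat_unitary mat_inv mkSU mat_mkSU TM
  TM_unitary T mat_T act_TM inv0 jf_inv0 row_null unitary_right jf jf_apply act lift J height X
  mulVec_lift_apply jf_ne_zero arith key_identity norm_c_le norm_b_le norm_a_le jf_one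
  smul_T_val jf_T height_T normSq_jf_inv height_smul smul_val jf_mul qq bet qq_eq qq_re
  height_gt_one_iff dist_facts row_eq_of_div qq_sub mu mat_injective continuous_height
  pt mu_height_one int_eq_zero_of_Ico mu_apply)

noncomputable section

/-- The image of `SU(2,1;ℤ[i])` in the group of transformations of `X`. -/
def gpic : Subgroup (Equiv.Perm X) := Gam.map (MulAction.toPermHom SU21 X)

lemma mem_gpic {p : Equiv.Perm X} : p ∈ gpic ↔ ∃ g ∈ Gam, ∀ z : X, g • z = p z := by
  constructor
  · rintro ⟨g, hg, rfl⟩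
    exact ⟨g, hg, fun z => rfl⟩
  · rintro ⟨g, hg, h⟩
    exact ⟨g, hg, Equiv.ext h⟩

/-- the transformation attached to a group element -/
def toPic (g : SU21) (hg : g ∈ Gam) : gpic :=
  ⟨MulAction.toPermHom SU21 X g, Subgroup.mem_map_of_mem _ hg⟩

lemma toPic_smul (g : SU21) (hg : g ∈ Gam) (z : X) : toPic g hg • z = g • z := rfl

lemma exists_lift (p : gpic) : ∃ g ∈ Gam, ∀ z : X, p • z = g • z := by
  obtain ⟨g, hg, h⟩ := mem_gpic.mp p.2
  exact ⟨g, hg, fun z => (h z).symm⟩

instance : Countable O := by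
  have : Function.Surjective (fun p : ℤ × ℤ => (⟨gi p.1 p.2, gi_mem _ _⟩ : O)) := by
    rintro ⟨x, a, b, rfl⟩
    exact ⟨(a, b), rfl⟩
  exact this.countable

instance countable_Gam : Countable Gam := by
  have : Function.Injective (fun (g : Gam) (i j : Fin 3) => (⟨mat g.1 i j, g.2 i j⟩ : O)) := by
    intro g h hgh
    apply Subtype.ext
    apply mat_injective
    ext i j
    exact congrArg Subtype.val (congrFun (congrFun hgh i) j)
  exact this.countable

instance : Countable gpic := by
  have : Function.Surjective (fun g : Gam => toPic g.1 g.2) := by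
    rintro ⟨p, hp⟩
    obtain ⟨g, hg, rfl⟩ := hp
    exact ⟨⟨g, hg⟩, rfl⟩
  exact this.countable

instance : MeasurableConstSMul gpic X where
  measurable_const_smul p := by
    obtain ⟨g, hg, h⟩ := exists_lift p
    have : (fun z : X => p • z) = fun z => g • z := funext h
    change Measurable (fun z : X => p • z)
    rw [this]
    exact measurable_const_smul g

instance : SMulInvariantMeasure gpic X mu where
  measure_preimage_smul p s hs := by
    obtain ⟨g, hg, h⟩ := exists_lift p
    have : (fun z : X => p • z) ⁻¹' s = (fun z : X => g • z) ⁻¹' s := by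
      ext z; simp [h z]
    rw [this]
    exact measure_preimage_smul mu g s

/-- coordinates -/
def sc (z : ℂ × ℂ) : ℝ := (z.2.re + z.2.im) / 2
/-- coordinates -/
def tc (z : ℂ × ℂ) : ℝ := (z.2.im - z.2.re) / 2
/-- coordinates -/
def vc (z : ℂ × ℂ) : ℝ := 2 * z.1.im

/-- The cusp box. -/
def D1 : Set X := {z | 1 < height z.1 ∧ sc z.1 ∈ Set.Ico (0 : ℝ) 1 ∧ tc z.1 ∈ Set.Ico (0 : ℝ) 1 ∧
  vc z.1 ∈ Set.Ico (0 : ℝ) 2}

lemma measurableSet_D1 : MeasurableSet D1 := by
  have h1 : Measurable fun z : X => height z.1 :=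
    continuous_height.measurable.comp measurable_subtype_coe
  have h2 : Measurable fun z : X => sc z.1 := by
    have : Continuous sc := by unfold sc; fun_prop
    exact this.measurable.comp measurable_subtype_coe
  have h3 : Measurable fun z : X => tc z.1 := by
    have : Continuous tc := by unfold tc; fun_prop
    exact this.measurable.comp measurable_subtype_coe
  have h4 : Measurable fun z : X => vc z.1 := by
    have : Continuous vc := by unfold vc; fun_prop
    exact this.measurable.comp measurable_subtype_coe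
  exact (h1 measurableSet_Ioi).inter ((h2 measurableSet_Ico).inter
    ((h3 measurableSet_Ico).inter (h4 measurableSet_Ico)))

/-- the lattice `(1+i)ℤ[i]` in coordinates -/
lemma sc_add (z : ℂ × ℂ) (m n : ℤ) (x : ℂ) : sc (x, z.2 + gi (m - n) (m + n)) = sc z + m := by
  simp only [sc, Complex.add_re, Complex.add_im, gi_re, gi_im]
  push_cast
  ring

lemma tc_add (z : ℂ × ℂ) (m n : ℤ) (x : ℂ) : tc (x, z.2 + gi (m - n) (m + n)) = tc z + n := by
  simp only [tc, Complex.add_re, Complex.add_im, gi_re, gi_im]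
  push_cast
  ring

lemma normSq_even (m n : ℤ) : Complex.normSq (gi (m - n) (m + n)) = 2 * ((m ^ 2 + n ^ 2 : ℤ) : ℝ) := by
  rw [normSq_gi]; push_cast; ring

/-- A Heisenberg translation mapping a point of the box to the box is trivial. -/
lemma box_unique {l w : ℂ} (hl : l ∈ O) (hw : w ∈ O) (hlw : 2 * w.re = -Complex.normSq l)
    {z : X} (hz : z ∈ D1) {z' : X} (hz' : z' ∈ D1)
    (h : z'.1 = (z.1.1 - star l * z.1.2 + w, z.1.2 + l)) : l = 0 ∧ w = 0 := by
  obtain ⟨p, q, rfl⟩ := hw
  have hl2 : ∃ m n : ℤ, l = gi (m - n) (m + n) := by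
    obtain ⟨a, b, rfl⟩ := hl
    rw [normSq_gi, gi_re] at hlw
    have h1 : 2 * p = -(a ^ 2 + b ^ 2) := by exact_mod_cast hlw
    have h2 : (a + b) % 2 = 0 := by
      rcases Int.even_or_odd a with ⟨a', ha⟩ | ⟨a', ha⟩ <;>
      rcases Int.even_or_odd b with ⟨b', hb⟩ | ⟨b', hb⟩
      · omega
      · exfalso
        have : 2 * p = -(4 * a' ^ 2 + 4 * b' ^ 2 + 4 * b' + 1) := by
          rw [h1, ha, hb]; ring
        omega
      · exfalso
        have : 2 * p = -(4 * a' ^ 2 + 4 * a' + 4 * b' ^ 2 + 1) := by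
          rw [h1, ha, hb]; ring
        omega
      · omega
    refine ⟨(a + b) / 2, (b - a) / 2, ?_⟩
    congr 1 <;> omega
  obtain ⟨m, n, rfl⟩ := hl2
  obtain ⟨-, hs, ht, hv⟩ := hz
  obtain ⟨-, hs', ht', hv'⟩ := hz'
  rw [h, sc_add] at hs'
  rw [h, tc_add] at ht'
  have ha := int_eq_zero_of_Ico hs hs'
  have hb := int_eq_zero_of_Ico ht ht'
  subst ha hb
  have h0 : gi (0 - 0) (0 + 0) = 0 := by rw [sub_zero, add_zero, gi_zero]
  rw [h0] at h hlw ⊢
  refine ⟨rfl, ?_⟩
  have hre : p = 0 := by
    rw [gi_re] at hlw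
    have : (2 : ℝ) * p = 0 := by rw [hlw]; simp
    have h3 : (p : ℝ) = 0 := by linarith
    exact_mod_cast h3
  rw [h] at hv'
  simp only [vc, star_zero, zero_mul, sub_zero, Complex.add_im, Set.mem_Ico, gi_im] at hv hv'
  have hq : q = 0 := by
    have h7 : (q : ℝ) < 1 := by linarith [hv.1, hv'.2]
    have h8 : (-1 : ℝ) < q := by linarith [hv.2, hv'.1]
    have h9 : q < 1 := by exact_mod_cast h7
    have h10 : -1 < q := by exact_mod_cast h8
    omega
  rw [hre, hq, gi_zero]

/-- If two lifts have the same third rows and both map `z` to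
the box then they give the same transformation. -/
lemma eq_of_rows {g h : SU21} (hg : g ∈ Gam) (hh : h ∈ Gam) {z : X} (h1 : g • z ∈ D1)
    (h2 : h • z ∈ D1) (hrow : ∀ i, mat g 2 i = mat h 2 i) :
    ∀ y : X, g • y = h • y := by
  have hrow' : ∀ i, mat (g * h⁻¹) 2 i = (1 : Matrix (Fin 3) (Fin 3) ℂ) 2 i := by
    intro i
    have e1 : mat (g * h⁻¹) 2 i = (mat h * mat h⁻¹) 2 i := by
      rw [mat_mul, Matrix.mul_apply, Matrix.mul_apply]
      apply Finset.sum_congr rfl
      intro j _
      rw [hrow j]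
    rw [e1, ← mat_mul, mul_inv_cancel, mat_one]
  have h20 : mat (g * h⁻¹) 2 0 = 0 := by rw [hrow' 0]; simp
  have h22 : mat (g * h⁻¹) 2 2 = 1 := by rw [hrow' 2]; simp
  obtain ⟨l, hl, w, hw, hlw, hact⟩ := unipotent (g * h⁻¹) (Gam.mul_mem hg (Gam.inv_mem hh)) h20
    h22
  have hgz : g • z = (g * h⁻¹) • (h • z) := by rw [mul_smul, inv_smul_smul]
  have hb := box_unique hl hw hlw h2 h1 (by rw [hgz, smul_val, hact])
  intro y
  have hgy : g • y = (g * h⁻¹) • (h • y) := by rw [mul_smul, inv_smul_smul]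
  rw [hgy]
  apply Subtype.ext
  rw [smul_val, hact, hb.1, hb.2]
  simp

/-- Number of group elements moving `z` to the box. -/
def NN (z : X) : ℝ≥0∞ := ∑' p : gpic, D1.indicator 1 (p • z)

lemma card_label : Fintype.card (Option (Option (ZMod 2 × Bool)) × (Bool × Bool)) = 24 := by
  simp [Fintype.card_prod]

lemma NN_le_of_height {z : X} (hz : 1 < height z.1) : NN z ≤ 24 := by
  classical
  unfold NN
  rw [ENNReal.tsum_eq_iSup_sum]
  apply iSup_le
  intro s
  have h1 : ∑ p ∈ s, D1.indicator (1 : X → ℝ≥0∞) (p • z) =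
      ((s.filter fun p => p • z ∈ D1).card : ℝ≥0∞) := by
    rw [Finset.card_filter]
    push_cast
    apply Finset.sum_congr rfl
    intro p _
    simp [Set.indicator_apply]
  rw [h1]
  have h2 : (s.filter fun p => p • z ∈ D1).card ≤ 24 := by
    rw [← card_label, ← Finset.card_univ]
    apply Finset.card_le_card_of_injOn (fun p => label (exists_lift p).choose z.1)
      (fun _ _ => Finset.mem_coe.mpr (Finset.mem_univ _))
    intro p hp q hq hpq
    simp only [Finset.coe_filter, Set.mem_ofPred_eq] at hp hq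
    obtain ⟨hg, hgp⟩ := (exists_lift p).choose_spec
    obtain ⟨hh, hhq⟩ := (exists_lift q).choose_spec
    simp only at hpq
    set g := (exists_lift p).choose
    set h := (exists_lift q).choose
    have hp2 : g • z ∈ D1 := by rw [← hgp]; exact hp.2
    have hq2 : h • z ∈ D1 := by rw [← hhq]; exact hq.2
    have hrow := label_inj hg hh hz hp2.1 hq2.1 hpq
    have h3 := eq_of_rows hg hh hp2 hq2 hrow
    apply Subtype.ext
    apply Equiv.ext
    intro y
    change p • y = q • y
    rw [hgp, hhq, h3]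
  exact_mod_cast h2

lemma NN_smul (q : gpic) (z : X) : NN (q • z) = NN z := by
  unfold NN
  rw [← (Equiv.mulRight q).tsum_eq (fun p : gpic => D1.indicator (1 : X → ℝ≥0∞) (p • z))]
  simp only [Equiv.coe_mulRight, mul_smul]

lemma NN_le (z : X) : NN z ≤ 24 := by
  by_cases h : ∃ p : gpic, p • z ∈ D1
  · obtain ⟨p, hp⟩ := h
    rw [← NN_smul p z]
    exact NN_le_of_height hp.1
  · push Not at h
    unfold NN
    have : ∀ p : gpic, D1.indicator (1 : X → ℝ≥0∞) (p • z) = 0 := by
      intro p
      exact Set.indicator_of_notMem (h p) _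
    simp [this]

/-- Every point can be moved to the box by a Heisenberg translation. -/
lemma exists_box (z : X) (hz : 1 < height z.1) : ∃ (l w : ℂ) (h : 2 * w.re = -Complex.normSq l),
    l ∈ O ∧ w ∈ O ∧ T l w h • z ∈ D1 := by
  set m : ℤ := -⌊sc z.1⌋ with hm
  set n : ℤ := -⌊tc z.1⌋ with hn
  obtain ⟨w, hw, hlw, h1, h2⟩ := exists_w (normSq_even m n)
    (-(2 * (z.1.1 - star (gi (m - n) (m + n)) * z.1.2).im))
  refine ⟨_, w, hlw, gi_mem _ _, hw, ?_, ?_, ?_, ?_⟩
  · rw [height_T]; exact hz
  · rw [smul_T_val, sc_add]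
    rw [hm]
    push_cast
    have h3 := Int.floor_le (sc z.1)
    have h4 := Int.lt_floor_add_one (sc z.1)
    constructor <;> linarith
  · rw [smul_T_val, tc_add]
    rw [hn]
    push_cast
    have h3 := Int.floor_le (tc z.1)
    have h4 := Int.lt_floor_add_one (tc z.1)
    constructor <;> linarith
  · rw [smul_T_val, vc, Complex.add_im]
    constructor <;> linarith

lemma rot_smul_val (z : X) : (rot • z : X).1 = (z.1.1, Complex.I * z.1.2) := by
  rw [smul_val, act_rot]

lemma rot_pow_smul_val (k : ℕ) (z : X) : (rot ^ k • z : X).1 = (z.1.1, Complex.I ^ k * z.1.2) := by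
  induction k with
  | zero => simp
  | succ k ih =>
    rw [pow_succ', mul_smul, rot_smul_val, ih]
    rw [pow_succ']
    ring_nf

lemma height_rot_pow (k : ℕ) (z : X) : height (rot ^ k • z : X).1 = height z.1 := by
  rw [rot_pow_smul_val]
  simp [height]

lemma rot_pow_mem (k : ℕ) : rot ^ k ∈ Gam := Gam.pow_mem rot_mem k

lemma I_pow_inj {j k : Fin 4} (h : Complex.I ^ (j : ℕ) = Complex.I ^ (k : ℕ)) : j = k := by
  have hre := congrArg Complex.re h
  have him := congrArg Complex.im h
  fin_cases j <;> fin_cases k <;> simp [pow_succ] at hre him <;> first | rfl | (exfalso; linarith)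

lemma four_le_NN {z : X} (hz : ∃ g ∈ Gam, 1 < height (g • z : X).1) : 4 ≤ NN z := by
  classical
  obtain ⟨g, hg, hgz⟩ := hz
  have hex : ∀ k : Fin 4, ∃ (l w : ℂ) (h : 2 * w.re = -Complex.normSq l),
      l ∈ O ∧ w ∈ O ∧ T l w h • (rot ^ (k : ℕ) • g • z) ∈ D1 := by
    intro k
    exact exists_box (rot ^ (k : ℕ) • g • z) (by rw [height_rot_pow]; exact hgz)
  choose l w hlw hl hw hb using hex
  have hm : ∀ k : Fin 4, T (l k) (w k) (hlw k) * (rot ^ (k : ℕ) * g) ∈ Gam := fun k =>
    Gam.mul_mem (T_mem (hlw k) (hl k) (hw k)) (Gam.mul_mem (rot_pow_mem k) hg)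
  have hinj : Function.Injective fun k : Fin 4 => toPic _ (hm k) := by
    intro j k heq
    have key : ∀ y : X, T (l j) (w j) (hlw j) • (rot ^ (j : ℕ) • y) =
        T (l k) (w k) (hlw k) • (rot ^ (k : ℕ) • y) := by
      intro y
      have := congrArg (fun p : gpic => p • (g⁻¹ • y)) heq
      simp only [toPic_smul, mul_smul, smul_inv_smul] at this
      exact this
    have k0 := congrArg (fun y : X => y.1.2) (key (pt 0 (by norm_num)))
    have k1 := congrArg (fun y : X => y.1.2) (key (pt 1 (by norm_num)))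
    simp only [smul_T_val, rot_pow_smul_val, pt] at k0 k1
    simp at k0 k1
    rw [k0] at k1
    apply I_pow_inj
    linear_combination k1
  have h3 := ENNReal.tsum_comp_le_tsum_of_injective hinj
    (fun p : gpic => D1.indicator (1 : X → ℝ≥0∞) (p • z))
  have h4 : ∀ k : Fin 4, D1.indicator (1 : X → ℝ≥0∞) (toPic _ (hm k) • z) = 1 := by
    intro k
    rw [toPic_smul, mul_smul, mul_smul, Set.indicator_of_mem (hb k)]; rfl
  unfold NN
  refine le_trans (le_of_eq ?_) h3
  simp only [h4]
  rw [tsum_fintype]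
  simp

/-- Almost every point can be moved strictly above height one. -/
lemma ae_exists_height : ∀ᵐ z ∂mu, ∃ g ∈ Gam, 1 < height (g • z : X).1 := by
  have hnull : mu (⋃ g : Gam, (fun z : X => g.1 • z) ⁻¹' {z : X | height z.1 = 1}) = 0 := by
    rw [measure_iUnion_null_iff]
    intro g
    rw [measure_preimage_smul_of_nullMeasurableSet]
    · exact mu_height_one
    · exact (((continuous_height.measurable.comp measurable_subtype_coe)
        (measurableSet_singleton 1))).nullMeasurableSet
  rw [ae_iff]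
  apply measure_mono_null _ hnull
  intro z hz
  simp only [Set.mem_ofPred_eq] at hz
  push Not at hz
  obtain ⟨g, hg, h1⟩ := exists_height_ge_one z
  have h2 := hz g hg
  exact Set.mem_iUnion.mpr ⟨⟨g, hg⟩, le_antisymm h2 h1⟩

/-- Unfolding. -/
lemma unfold_D1 {F : Set X} (hF : IsFundamentalDomain gpic F mu) {φ : X → ℝ≥0∞}
    (hφ : Measurable φ) (hinv : ∀ (p : gpic) (z : X), φ (p • z) = φ z) :
    ∫⁻ z in D1, φ z ∂mu = ∫⁻ z in F, NN z * φ z ∂mu := by
  rw [← lintegral_indicator measurableSet_D1, hF.lintegral_eq_tsum'' (D1.indicator φ)]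
  rw [← lintegral_tsum]
  · apply lintegral_congr
    intro z
    unfold NN
    rw [← ENNReal.tsum_mul_right]
    congr 1
    ext p
    by_cases h : p • z ∈ D1
    · simp [Set.indicator_of_mem h, hinv]
    · simp [Set.indicator_of_notMem h]
  · intro p
    exact ((hφ.indicator measurableSet_D1).comp (measurable_const_smul p)).aemeasurable

lemma measurable_NN : Measurable NN := by
  unfold NN
  apply Measurable.tsum
  intro p
  exact (measurable_one.indicator measurableSet_D1).comp (measurable_const_smul p)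

lemma D1_le {F : Set X} (hF : IsFundamentalDomain gpic F mu) {φ : X → ℝ≥0∞}
    (hφ : Measurable φ) (hinv : ∀ (p : gpic) (z : X), φ (p • z) = φ z) :
    ∫⁻ z in D1, φ z ∂mu ≤ 24 * ∫⁻ z in F, φ z ∂mu := by
  rw [unfold_D1 hF hφ hinv, ← lintegral_const_mul _ hφ]
  exact lintegral_mono fun z => mul_le_mul' (NN_le z) le_rfl

lemma le_D1 {F : Set X} (hF : IsFundamentalDomain gpic F mu) {φ : X → ℝ≥0∞}
    (hφ : Measurable φ) (hinv : ∀ (p : gpic) (z : X), φ (p • z) = φ z) :
    4 * ∫⁻ z in F, φ z ∂mu ≤ ∫⁻ z in D1, φ z ∂mu := by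
  rw [unfold_D1 hF hφ hinv, ← lintegral_const_mul _ hφ]
  apply lintegral_mono_ae
  filter_upwards [ae_restrict_of_ae ae_exists_height] with z hz
  exact mul_le_mul' (four_le_NN hz) le_rfl

end

end Pool.Agent.Lib.H56.Gauss
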